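import Pool.Agent.P.MP_3d2265_gt.TC.Defs

/-! Conditions on the homology of a module, lifting properties, the data in the algebra. -/

set_option autoImplicit false

namespace Pool.Agent.P.MP_3d2265_gt.TC

open CategoryTheory Limits Function

/-- A ring with a central element of square zero and a set of conditions. -/
structure Ctx (A : Type) [Ring A] where
  ε : A
  C : Set (A × A × A)
  cen : ∀ r, ε * r = r * ε
  εε : ε * ε = 0
  ann : ∀ r, ε * r = 0 → ∃ s, r = ε * s

section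
variable {A : Type} [Ring A] {M M' M'' : Type} [AddCommGroup M] [Module A M] [AddCommGroup M']
  [Module A M'] [AddCommGroup M''] [Module A M'']

/-- Instances of the condition `c` in `M` are solved in `M'`. -/
def Sol (ε : A) (c : A × A × A) (i : M →ₗ[A] M') : Prop :=
  ∀ z u : M, ε • z = 0 → c.1 • z = ε • u →
    ∃ z' u' : M', ε • z' = 0 ∧ c.2.1 • i z = c.2.2 • z' + ε • u'

/-- On the homology of `M`: if `c.1 m = 0` then `c.2.1 m` lies in the image of `c.2.2`. -/
def Cond (ε : A) (c : A × A × A) (M : Type) [AddCommGroup M] [Module A M] : Prop :=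
  ∀ z u : M, ε • z = 0 → c.1 • z = ε • u →
    ∃ z' u' : M, ε • z' = 0 ∧ c.2.1 • z = c.2.2 • z' + ε • u'

/-- Cycles are boundaries. -/
def Acyc (ε : A) (M : Type) [AddCommGroup M] [Module A M] : Prop :=
  ∀ z : M, ε • z = 0 → ∃ u, z = ε • u

variable {ε : A} {c : A × A × A}

theorem Cond.sol (h : Cond ε c M) : Sol ε c (LinearMap.id : M →ₗ[A] M) := h

theorem Sol.comp_left {i : M →ₗ[A] M'} (h : Sol ε c i) (j : M' →ₗ[A] M'') :
    Sol ε c (j ∘ₗ i) := fun z u a b => by
  obtain ⟨z', u', e, e'⟩ := h z u a b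
  exact ⟨j z', j u', by rw [← map_smul, e, map_zero], by
    rw [LinearMap.comp_apply, ← map_smul, e', map_add, map_smul, map_smul]⟩

theorem Sol.comp_right {j : M' →ₗ[A] M''} (h : Sol ε c j) (i : M →ₗ[A] M') :
    Sol ε c (j ∘ₗ i) := fun z u a b =>
  h (i z) (i u) (by rw [← map_smul, a, map_zero]) (by rw [← map_smul, b, map_smul])

theorem Cond.retract (h : Cond ε c M') (s : M →ₗ[A] M') (r : M' →ₗ[A] M)
    (e : ∀ m, r (s m) = m) : Cond ε c M := fun z u a b => by
  have := ((h.sol.comp_right s).comp_left r) z u a b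
  simpa only [LinearMap.comp_apply, LinearMap.id_apply, e] using this

theorem Cond.equiv (h : Cond ε c M') (e : M ≃ₗ[A] M') : Cond ε c M :=
  h.retract e.toLinearMap e.symm.toLinearMap e.symm_apply_apply

variable (K : Ctx A)

theorem Ctx.sc (r : A) (m : M) : K.ε • r • m = r • K.ε • m := by
  rw [smul_smul, smul_smul, K.cen]

theorem Ctx.ss (m : M) : K.ε • K.ε • m = 0 := by rw [smul_smul, K.εε, zero_smul]

theorem Acyc.cond {K : Ctx A} (h : Acyc K.ε M) (c : A × A × A) : Cond K.ε c M :=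
  fun z _ a _ => by
    obtain ⟨v, rfl⟩ := h z a
    exact ⟨0, c.2.1 • v, smul_zero _, by rw [smul_zero, zero_add, K.sc]⟩

/-- The right class. -/
def BB (M : Type) [AddCommGroup M] [Module A M] : Prop := ∀ c ∈ K.C, Cond K.ε c M

/-- A surjection with kernel in the right class. -/
def SB (π : M →ₗ[A] M') : Prop := Surjective π ∧ BB K (LinearMap.ker π)

/-- The left lifting property. -/
def LL (i : M →ₗ[A] M') : Prop :=
  ∀ (E E' : Type) [AddCommGroup E] [Module A E] [AddCommGroup E'] [Module A E']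
    (π : E →ₗ[A] E'), SB K π → ∀ (f : M →ₗ[A] E) (g : M' →ₗ[A] E'), π ∘ₗ f = g ∘ₗ i →
    ∃ h : M' →ₗ[A] E, h ∘ₗ i = f ∧ π ∘ₗ h = g

/-- The left class. -/
def AA (M : Type) [AddCommGroup M] [Module A M] : Prop :=
  ∀ (E E' : Type) [AddCommGroup E] [Module A E] [AddCommGroup E'] [Module A E']
    (π : E →ₗ[A] E'), SB K π → ∀ g : M →ₗ[A] E', ∃ h : M →ₗ[A] E, π ∘ₗ h = g

/-- Every module has a map with the lifting property into the right class. -/
def Env : Prop := ∀ (M : Type) [AddCommGroup M] [Module A M],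
  ∃ (B : Type) (_ : AddCommGroup B) (_ : Module A B) (i : M →ₗ[A] B), LL K i ∧ BB K B

variable {K}

theorem Acyc.bb (h : Acyc K.ε M) : BB K M := fun c _ => h.cond c

theorem BB.retract (h : BB K M') (s : M →ₗ[A] M') (r : M' →ₗ[A] M) (e : ∀ m, r (s m) = m) :
    BB K M := fun c hc => (h c hc).retract s r e

theorem BB.equiv (h : BB K M') (e : M ≃ₗ[A] M') : BB K M := fun c hc => (h c hc).equiv e

theorem SB.of_exact {ι : M →ₗ[A] M'} {π : M' →ₗ[A] M''} (h : BB K M) (hι : Injective ι)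
    (ex : Exact ι π) (hπ : Surjective π) : SB K π :=
  ⟨hπ, h.equiv ((LinearEquiv.ofEq _ _ ex.linearMap_ker_eq).trans
    (LinearEquiv.ofInjective ι hι).symm)⟩

theorem LL.id : LL K (LinearMap.id : M →ₗ[A] M) :=
  fun _ _ _ _ _ _ _ _ f _ e => ⟨f, rfl, e⟩

theorem LL.comp {i : M →ₗ[A] M'} {j : M' →ₗ[A] M''} (hi : LL K i) (hj : LL K j) :
    LL K (j ∘ₗ i) := fun E E' _ _ _ _ π hπ f g e => by
  obtain ⟨h, a, b⟩ := hi E E' π hπ f (g ∘ₗ j) e
  obtain ⟨h', a', b'⟩ := hj E E' π hπ h g b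
  exact ⟨h', by rw [← LinearMap.comp_assoc, a', a], b'⟩

theorem LL.aa {i : M →ₗ[A] M'} (hi : LL K i) (h : AA K M) : AA K M' :=
  fun E E' _ _ _ _ π hπ g => by
    obtain ⟨f, e⟩ := h E E' π hπ (g ∘ₗ i)
    obtain ⟨h, -, b⟩ := hi E E' π hπ f g e
    exact ⟨h, b⟩

theorem AA.retract (h : AA K M') (s : M →ₗ[A] M') (r : M' →ₗ[A] M) (e : ∀ m, r (s m) = m) :
    AA K M := fun E E' _ _ _ _ π hπ g => by
  obtain ⟨f, e'⟩ := h E E' π hπ (g ∘ₗ r)
  refine ⟨f ∘ₗ s, ?_⟩
  rw [← LinearMap.comp_assoc, e']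
  exact LinearMap.ext fun m => congrArg g (e m)

theorem AA.equiv (h : AA K M') (e : M ≃ₗ[A] M') : AA K M :=
  h.retract e.toLinearMap e.symm.toLinearMap e.symm_apply_apply

theorem AA.of_projective [Module.Projective A M] : AA K M :=
  fun _ _ _ _ _ _ π hπ g => Module.projective_lifting_property π g hπ.1

theorem acyc_free (I : Type) : Acyc K.ε (I →₀ A) := fun z hz => by
  classical
  have h : ∀ i, ∃ s, z i = K.ε * s ∧ (z i = 0 → s = 0) := fun i => by
    by_cases e : z i = 0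
    · exact ⟨0, by rw [e, mul_zero], fun _ => rfl⟩
    · obtain ⟨s, hs⟩ := K.ann (z i) (DFunLike.congr_fun hz i)
      exact ⟨s, hs, fun e' => (e e').elim⟩
  choose s hs hs' using h
  exact ⟨Finsupp.onFinset z.support s fun i hi => Finsupp.mem_support_iff.2 fun e => hi (hs' i e),
    Finsupp.ext hs⟩

theorem acyc_inj [Module.Injective A M] : Acyc K.ε M := fun z hz => by
  obtain ⟨h, e⟩ := Module.Injective.extension_property A M _ _
    (LinearMap.range (LinearMap.toSpanSingleton A A K.ε)).subtype Subtype.val_injective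
    (((LinearMap.ker (LinearMap.toSpanSingleton A A K.ε)).liftQ
      (LinearMap.toSpanSingleton A M z) fun r hr => by
        obtain ⟨s, rfl⟩ := K.ann r ((K.cen r).trans hr)
        change (K.ε * s) • z = 0
        rw [K.cen, mul_smul, hz, smul_zero]) ∘ₗ
      (LinearMap.toSpanSingleton A A K.ε).quotKerEquivRange.symm.toLinearMap)
  refine ⟨h 1, ?_⟩
  have := LinearMap.congr_fun e
    ⟨LinearMap.toSpanSingleton A A K.ε 1, LinearMap.mem_range_self _ 1⟩
  rw [LinearMap.comp_apply, LinearMap.comp_apply, LinearEquiv.coe_coe,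
    LinearMap.quotKerEquivRange_symm_apply_image] at this
  simp only [Submodule.subtype_apply, LinearMap.toSpanSingleton_apply, one_smul,
    Submodule.mkQ_apply, Submodule.liftQ_apply] at this
  rw [← this, ← map_smul, smul_eq_mul, mul_one]

/-- Every module embeds in an injective module. -/
theorem exists_inj (A : Type) [Ring A] (M : Type) [AddCommGroup M] [Module A M] :
    ∃ (I : Type) (_ : AddCommGroup I) (_ : Module A I) (ι : M →ₗ[A] I),
      Injective ι ∧ Module.Injective A I := by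
  obtain ⟨⟨I, hI, f, hf⟩⟩ := EnoughInjectives.presentation (ModuleCat.of A M)
  exact ⟨I, _, _, f.hom, (ModuleCat.mono_iff_injective _).1 hf,
    (Module.injective_iff_injective_object A I).2 hI⟩

end

section
variable {A : Type} [Ring A] {J : Type} [SmallCategory J] [IsFiltered J]
  {F : J ⥤ ModuleCat.{0} A} {c : Cocone F}

theorem colim_rep (hc : IsColimit c) (x : c.pt) : ∃ j y, (c.ι.app j).hom y = x :=
  Concrete.isColimit_exists_rep F hc x

theorem colim_eq (hc : IsColimit c) {j : J} {y y' : F.obj j}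
    (h : (c.ι.app j).hom y = (c.ι.app j).hom y') :
    ∃ (j' : J) (f : j ⟶ j'), (F.map f).hom y = (F.map f).hom y' :=
  (Types.FilteredColimit.isColimit_eq_iff' (isColimitOfPreserves (forget _) hc) _ _).mp h

omit [IsFiltered J] in
theorem colim_w (c : Cocone F) {j j' : J} (f : j ⟶ j') (y : F.obj j) :
    (c.ι.app j').hom ((F.map f).hom y) = (c.ι.app j).hom y :=
  congrArg (fun g => g.hom y) (c.w f)

end

/-- The elements of the algebra and their relations. -/
structure Dat (A : Type) [Ring A] where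
  (ε e₁ e₂ e₃ a x p y b q w : A)
  cen : ∀ r, ε * r = r * ε
  εε : ε * ε = 0
  ann : ∀ r, ε * r = 0 → ∃ s, r = ε * s
  e₁₁ : e₁ * e₁ = e₁
  e₂₂ : e₂ * e₂ = e₂
  e₃₃ : e₃ * e₃ = e₃
  e₁a : e₁ * a = a
  ae₂ : a * e₂ = a
  e₁p : e₁ * p = p
  pe₂ : p * e₂ = p
  e₁x : e₁ * x = x
  e₂b : e₂ * b = b
  be₃ : b * e₃ = b
  e₂q : e₂ * q = q
  e₂w : e₂ * w = w
  r₁ : x * b = p * q
  r₂ : a * q = x * w
  r₃ : p * b = y * q

/-- The five conditions. -/
def Dat.ctx {A : Type} [Ring A] (D : Dat A) : Ctx A :=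
  ⟨D.ε, {(0, D.e₁, D.a), (D.a, D.e₂, 0), (0, D.e₂, D.b), (D.b, D.e₃, 0), (0, D.q, 0)},
    D.cen, D.εε, D.ann⟩

/-- A local algebra with residue field `k`. -/
structure Loc (k T : Type) [Field k] [Ring T] [Algebra k T] where
  χ : T →ₐ[k] k
  unit : ∀ t, χ t ≠ 0 → IsUnit t

/-- The representation of the algebra on the cube of the local ring. -/
structure Rep {k T A : Type} [Field k] [Ring T] [Algebra k T] [Ring A] (L : Loc k T) (D : Dat A)
    (ρ : A →+* Matrix (Fin 3) (Fin 3) T) : Prop where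
  ε : ρ D.ε = 0
  e₁ : ρ D.e₁ = Matrix.single 0 0 1
  e₂ : ρ D.e₂ = Matrix.single 1 1 1
  e₃ : ρ D.e₃ = Matrix.single 2 2 1
  a : ρ D.a = Matrix.single 0 1 1
  b : ρ D.b = Matrix.single 1 2 1
  q : ∃ t, t ≠ 0 ∧ L.χ t = 0 ∧ ρ D.q = Matrix.single 1 2 t

/-- Column vectors as a module through a representation. -/
def Col {A T n : Type} [Ring A] [Ring T] [Fintype n] [DecidableEq n]
    (_ : A →+* Matrix n n T) : Type := n → T

section
variable {A T n : Type} [Ring A] [Ring T] [Fintype n] [DecidableEq n] (ρ : A →+* Matrix n n T)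

instance : AddCommGroup (Col ρ) := inferInstanceAs (AddCommGroup (n → T))

/-- The underlying vector. -/
def Col.vec : Col ρ ≃+ (n → T) := AddEquiv.refl _

instance : SMul A (Col ρ) := ⟨fun r v => (Col.vec ρ).symm ((ρ r).mulVec (Col.vec ρ v))⟩

theorem Col.vec_smul (r : A) (v : Col ρ) :
    Col.vec ρ (r • v) = (ρ r).mulVec (Col.vec ρ v) := rfl

instance : Module A (Col ρ) where
  one_smul v := (Col.vec ρ).injective (by rw [Col.vec_smul, map_one, Matrix.one_mulVec])
  mul_smul r s v := (Col.vec ρ).injective (by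
    rw [Col.vec_smul, Col.vec_smul, Col.vec_smul, map_mul, Matrix.mulVec_mulVec])
  smul_zero r := (Col.vec ρ).injective (by rw [Col.vec_smul, map_zero, Matrix.mulVec_zero])
  smul_add r v v' := (Col.vec ρ).injective (by
    rw [Col.vec_smul, map_add, map_add, Col.vec_smul, Col.vec_smul, Matrix.mulVec_add])
  add_smul r s v := (Col.vec ρ).injective (by
    rw [Col.vec_smul, map_add, map_add, Col.vec_smul, Col.vec_smul, Matrix.add_mulVec])
  zero_smul v := (Col.vec ρ).injective (by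
    rw [Col.vec_smul, map_zero, map_zero, Matrix.zero_mulVec])

end

/-- The group of the maps `s ↦ 3 ^ n * s + b`. -/
@[ext] structure Gp where
  b : ℚ
  n : ℤ

instance : Group Gp where
  mul g h := ⟨g.b + 3 ^ g.n * h.b, g.n + h.n⟩
  one := ⟨0, 0⟩
  inv g := ⟨-(3 ^ (-g.n) * g.b), -g.n⟩
  mul_assoc g h l := Gp.ext (by
    change g.b + 3 ^ g.n * h.b + 3 ^ (g.n + h.n) * l.b = g.b + 3 ^ g.n * (h.b + 3 ^ h.n * l.b)
    rw [zpow_add₀ (by norm_num)]; ring) (add_assoc _ _ _)
  one_mul g := Gp.ext (by change 0 + 3 ^ (0 : ℤ) * g.b = g.b; simp) (zero_add _)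
  mul_one g := Gp.ext (by change g.b + 3 ^ g.n * 0 = g.b; simp) (add_zero _)
  inv_mul_cancel g := Gp.ext (neg_add_cancel _) (neg_add_cancel _)

theorem Gp.mul_b (g h : Gp) : (g * h).b = g.b + 3 ^ g.n * h.b := rfl
theorem Gp.mul_n (g h : Gp) : (g * h).n = g.n + h.n := rfl
theorem Gp.one_b : (1 : Gp).b = 0 := rfl
theorem Gp.one_n : (1 : Gp).n = 0 := rfl
theorem Gp.inv_b (g : Gp) : g⁻¹.b = -(3 ^ (-g.n) * g.b) := rfl
theorem Gp.inv_n (g : Gp) : g⁻¹.n = -g.n := rfl

/-- A positive cone of a left order. -/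
def Cone {G : Type} [Group G] (P : Submonoid G) : Prop :=
  (∀ g, g ∈ P ∨ g⁻¹ ∈ P) ∧ ∀ g, g ∈ P → g⁻¹ ∈ P → g = 1

/-- The part of the group algebra that is supported on `P`. -/
def Sup (k : Type) [Field k] {G : Type} [Group G] (P : Submonoid G) :
    Subalgebra k (MonoidAlgebra k G) where
  carrier := {f | ∀ g ∈ f.coeff.support, g ∈ P}
  mul_mem' {f f'} h h' g hg := by
    classical
    obtain ⟨a, ha, b, hb, rfl⟩ :=
      Finset.mem_mul.1 (MonoidAlgebra.support_coeff_mul_subset f f' hg)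
    exact P.mul_mem (h a ha) (h' b hb)
  add_mem' {f f'} h h' g hg := by
    classical
    rcases Finset.mem_union.1 (Finsupp.support_add hg) with e | e
    exacts [h g e, h' g e]
  algebraMap_mem' r g hg := by
    rw [Finset.mem_singleton.1 (Finsupp.support_single_subset hg)]
    exact P.one_mem

end Pool.Agent.P.MP_3d2265_gt.TC
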