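import Mathlib

/-! Cotorsion pairs and filtered colimits of modules. -/

set_option autoImplicit false

namespace Pool.Agent.P.MP_3d2265_gt.TC

open CategoryTheory Limits

variable {A : Type} [Ring A]

/-- `Ext^n(X, Y) = 0`. -/
def ExtZ (n : ℕ) (X Y : ModuleCat.{0} A) : Prop := Subsingleton (Abelian.Ext X Y n)

/-- There is a short exact sequence `0 → L → M → N → 0`. -/
def SES (L M N : ModuleCat.{0} A) : Prop :=
  ∃ (i : L ⟶ M) (p : M ⟶ N) (w : i ≫ p = 0), (ShortComplex.mk i p w).ShortExact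

/-- A complete hereditary cotorsion pair. -/
structure CHCP (𝒜 ℬ : ModuleCat.{0} A → Prop) : Prop where
  left : ∀ X, 𝒜 X ↔ ∀ Y, ℬ Y → ExtZ 1 X Y
  right : ∀ Y, ℬ Y ↔ ∀ X, 𝒜 X → ExtZ 1 X Y
  hered : ∀ n X Y, 𝒜 X → ℬ Y → ExtZ (n + 1) X Y
  precover : ∀ M, ∃ Y X, ℬ Y ∧ 𝒜 X ∧ SES Y X M
  preenvelope : ∀ M, ∃ Y X, ℬ Y ∧ 𝒜 X ∧ SES M Y X

/-- `X` is a filtered colimit of modules of the class `𝒞`. -/
def Lim (𝒞 : ModuleCat.{0} A → Prop) (X : ModuleCat.{0} A) : Prop :=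
  ∃ (J : Type) (_ : SmallCategory J) (_ : IsFiltered J) (F : J ⥤ ModuleCat.{0} A) (c : Cocone F),
    Nonempty (IsColimit c) ∧ (∀ j, 𝒞 (F.obj j)) ∧ c.pt = X

/-- `A` carries a symmetric nondegenerate associative form. -/
def SymAlg (k A : Type) [Field k] [Ring A] [Algebra k A] : Prop :=
  ∃ l : A →ₗ[k] k, (∀ a b, l (a * b) = l (b * a)) ∧ ∀ a, (∀ b, l (a * b) = 0) → a = 0

end Pool.Agent.P.MP_3d2265_gt.TC
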