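import Pool.Agent.P.MP_3d2265_gt.TC.Base

/-! Statements of the steps. -/

set_option autoImplicit false

namespace Pool.Agent.P.MP_3d2265_gt.TC

open CategoryTheory Limits Function

section
variable {A : Type} [Ring A] {M M' : Type} [AddCommGroup M] [Module A M] [AddCommGroup M']
  [Module A M']

/-- Telescope systems in `M` are solved in `M'`. -/
def Tel (ε e e' a p : A) (i : M →ₗ[A] M') : Prop :=
  ∀ g h : ℕ → M, (∀ n, e • g n = g n ∧ e' • h n = h n ∧ ε • g n = 0 ∧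
    ε • h n + a • g n - p • g (n + 1) = 0) → ∃ u v : ℕ → M', ∀ n,
      i (g n) = (ε * e) • u n ∧ i (h n) = (ε * e') • v n - a • u n + p • u (n + 1)

/-- The relations between the coefficients of a telescope system. -/
def TR (e e' a p : A) : Prop :=
  e * e = e ∧ e' * e' = e' ∧ e' * a = a ∧ a * e = a ∧ e' * p = p ∧ p * e = p

/-- Maps from `X` lift along surjections with kernel `Y`. -/
def LiftP (A : Type) [Ring A] (X Y : Type) [AddCommGroup X] [Module A X] [AddCommGroup Y]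
    [Module A Y] : Prop :=
  ∀ (E E' : Type) [AddCommGroup E] [Module A E] [AddCommGroup E'] [Module A E']
    (ι : Y →ₗ[A] E) (π : E →ₗ[A] E'), Injective ι → Exact ι π → Surjective π →
    ∀ g : X →ₗ[A] E', ∃ h : X →ₗ[A] E, π ∘ₗ h = g

end

/-- The reduction of a representation to the residue field. -/
def Loc.red {k T A n : Type} [Field k] [Ring T] [Algebra k T] [Ring A] [Fintype n]
    [DecidableEq n] (L : Loc k T) (ρ : A →+* Matrix n n T) : A →+* Matrix n n k :=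
  (L.χ.toRingHom.mapMatrix).comp ρ

/-! ### The local ring -/

-- deps:
def S_FOL : Prop := ∀ (k : Type) [Field k] (r s : MonoidAlgebra k Gp),
  ∃ u v : MonoidAlgebra k Gp, (u ≠ 0 ∨ v ≠ 0) ∧ u * r = v * s

-- deps:
def S_MIN : Prop := ∀ (k G : Type) [Field k] [Group G] (P : Submonoid G), Cone P →
  (∀ v : MonoidAlgebra k G, v ≠ 0 →
    ∃ g ∈ v.coeff.support, ∀ h ∈ v.coeff.support, g⁻¹ * h ∈ P) ∧
  ∀ (v s : MonoidAlgebra k G) (g : G), s ∈ Sup k P → (∀ h ∈ v.coeff.support, g⁻¹ * h ∈ P) →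
    (v * s).coeff g = v.coeff g * s.coeff 1

-- deps: MIN
def S_ORE : Prop := ∀ (k G : Type) [Field k] [Group G] (P : Submonoid G), Cone P →
  (∀ r s : MonoidAlgebra k G, ∃ u v : MonoidAlgebra k G, (u ≠ 0 ∨ v ≠ 0) ∧ u * r = v * s) →
  ∀ r s : Sup k P, s.1.coeff 1 ≠ 0 →
    (r * s = 0 → r = 0) ∧ ∃ r' s' : Sup k P, s'.1.coeff 1 ≠ 0 ∧ s' * r = r' * s

-- deps:
def S_LOCZ : Prop := ∀ (k R : Type) [Field k] [Ring R] [Algebra k R] (χ : R →ₐ[k] k),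
  (∀ r s, χ s ≠ 0 → (r * s = 0 → r = 0) ∧ ∃ r' s', χ s' ≠ 0 ∧ s' * r = r' * s) →
  ∃ (T : Type) (_ : Ring T) (_ : Algebra k T) (L : Loc k T) (φ : R →+* T),
    (∀ r, L.χ (φ r) = χ r) ∧ ∀ r, φ r = 0 → ∃ s, χ s ≠ 0 ∧ s * r = 0

-- deps: FOL MIN ORE LOCZ
def S_TT : Prop := ∀ (k : Type) [Field k], ∃ (T : Type) (_ : Ring T) (_ : Algebra k T)
  (L : Loc k T) (q y w : T), q ≠ 0 ∧ L.χ q = 0 ∧ y * q * q * w = q

/-! ### The algebra -/

-- deps: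
def S_LAM : Prop := ∀ (k T : Type) [Field k] [Ring T] [Algebra k T] (S : Finset T),
  ∃ Λ : Subalgebra k (Matrix (Fin 3) (Fin 3) T), Module.Finite k Λ ∧
    (∀ i, Matrix.single i i 1 ∈ Λ) ∧
    ∀ t ∈ S, Matrix.single 0 1 t ∈ Λ ∧ Matrix.single 1 2 t ∈ Λ

-- deps:
def S_TE : Prop := ∀ (k Λ : Type) [Field k] [Ring Λ] [Algebra k Λ], Module.Finite k Λ →
  ∃ (B : Type) (_ : Ring B) (_ : Algebra k B) (σ : Λ →+* B) (τ : B →+* Λ),
    Module.Finite k B ∧ SymAlg k B ∧ ∀ l, τ (σ l) = l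

-- deps:
def S_DN : Prop := ∀ (k B : Type) [Field k] [Ring B] [Algebra k B], Module.Finite k B →
  SymAlg k B → ∃ (A : Type) (_ : Ring A) (_ : Algebra k A) (σ : B →+* A) (τ : A →+* B) (ε : A),
    Module.Finite k A ∧ SymAlg k A ∧ (∀ l, τ (σ l) = l) ∧ τ ε = 0 ∧ (∀ r, ε * r = r * ε) ∧
    ε * ε = 0 ∧ ∀ r, ε * r = 0 → ∃ s, r = ε * s

-- deps: TT LAM TE DN
def S_ALG : Prop := ∀ (k : Type) [Field k], ∃ (T : Type) (_ : Ring T) (_ : Algebra k T)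
  (L : Loc k T) (A : Type) (_ : Ring A) (_ : Algebra k A) (D : Dat A)
  (ρ : A →+* Matrix (Fin 3) (Fin 3) T), Module.Finite k A ∧ SymAlg k A ∧ Rep L D ρ

-- deps:
def S_BAER : Prop := ∀ (k A : Type) [Field k] [Ring A] [Algebra k A], Module.Finite k A →
  SymAlg k A → IsNoetherianRing A ∧ Module.Baer A A

-- deps:
def S_FREE : Prop := ∀ (A : Type) [Ring A], IsNoetherianRing A → Module.Baer A A →
  ∀ I : Type, Module.Baer A (I →₀ A)

/-! ### The conditions -/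

-- deps:
def S_SHIFT : Prop := ∀ (A : Type) [Ring A] (K : Ctx A) (c : A × A × A) (Y E Y' : Type)
  [AddCommGroup Y] [Module A Y] [AddCommGroup E] [Module A E] [AddCommGroup Y'] [Module A Y']
  (ι : Y →ₗ[A] E) (π : E →ₗ[A] Y'), Injective ι → Exact ι π → Surjective π → Acyc K.ε E →
  (Cond K.ε c Y ↔ Cond K.ε c Y')

-- deps:
def S_GERM : Prop := ∀ (A : Type) [Ring A] (ε : A) (c : A × A × A) (Y J : Type) [AddCommGroup Y]
  [Module A Y] (l : Filter J), Cond ε c Y → Cond ε c (Filter.Germ l Y)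

-- deps:
def S_COLIM : Prop := ∀ (A : Type) [Ring A] (ε : A) (c : A × A × A) (J : Type) [SmallCategory J]
  [IsFiltered J] (F : J ⥤ ModuleCat.{0} A) (s : Cocone F), IsColimit s →
  (∀ j, ∃ (j' : J) (f : j ⟶ j'), Sol ε c (F.map f).hom) → Cond ε c s.pt

-- deps:
def S_LLSEQ : Prop := ∀ (A : Type) [Ring A] (K : Ctx A) (F : ℕ ⥤ ModuleCat.{0} A)
  (s : Cocone F), IsColimit s → (∀ n : ℕ, LL K (F.map (homOfLE n.le_succ)).hom) →
  LL K (s.ι.app 0).hom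

-- deps: COLIM LLSEQ
def S_OMEGA : Prop := ∀ (A : Type) [Ring A] (K : Ctx A) (C : Set (A × A × A)),
  (∀ (M : Type) [AddCommGroup M] [Module A M], ∃ (M' : Type) (_ : AddCommGroup M')
    (_ : Module A M') (i : M →ₗ[A] M'), LL K i ∧ ∀ c ∈ C, Sol K.ε c i) →
  ∀ (M : Type) [AddCommGroup M] [Module A M], ∃ (M' : Type) (_ : AddCommGroup M')
    (_ : Module A M') (i : M →ₗ[A] M'), LL K i ∧ ∀ c ∈ C, Cond K.ε c M'

-- deps:
def S_PUSH : Prop := ∀ (A : Type) [Ring A] (K : Ctx A) (N P : Type) [AddCommGroup N] [Module A N]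
  [AddCommGroup P] [Module A P] (θ : N →ₗ[A] P), Module.Projective A P →
  (∀ (Y : Type) [AddCommGroup Y] [Module A Y], BB K Y → ∀ φ : N →ₗ[A] Y,
    ∃ ψ : P →ₗ[A] Y, ψ ∘ₗ θ = φ) →
  ∀ (M : Type) [AddCommGroup M] [Module A M], ∃ (M' : Type) (_ : AddCommGroup M')
    (_ : Module A M') (i : M →ₗ[A] M'), LL K i ∧
    ∀ μ : N →ₗ[A] M, ∃ ν : P →ₗ[A] M', ν ∘ₗ θ = i ∘ₗ μ

-- deps: PUSH
def S_TEL : Prop := ∀ (A : Type) [Ring A] (K : Ctx A) (e e' a p : A), TR e e' a p →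
  (∀ (Y : Type) [AddCommGroup Y] [Module A Y], BB K Y →
    Tel K.ε e e' a p (LinearMap.id : Y →ₗ[A] Y)) →
  ∀ (M : Type) [AddCommGroup M] [Module A M], ∃ (M' : Type) (_ : AddCommGroup M')
    (_ : Module A M') (i : M →ₗ[A] M'), LL K i ∧ Tel K.ε e e' a p i

-- deps:
def S_TEL0 : Prop := ∀ (A : Type) [Ring A] (K : Ctx A) (e e' a p : A) (Y : Type)
  [AddCommGroup Y] [Module A Y], TR e e' a p → Cond K.ε (0, e', a) Y → Cond K.ε (a, e, 0) Y →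
  Cond K.ε (0, p, 0) Y → Tel K.ε e e' a p (LinearMap.id : Y →ₗ[A] Y)

-- deps:
def S_TEL1 : Prop := ∀ (A : Type) [Ring A] (K : Ctx A) (e e' a : A) (M M' : Type)
  [AddCommGroup M] [Module A M] [AddCommGroup M'] [Module A M'] (i : M →ₗ[A] M'),
  TR e e' a 0 → Tel K.ε e e' a 0 i → Sol K.ε (0, e', a) i ∧ Sol K.ε (a, e, 0) i

-- deps:
def S_TEL2 : Prop := ∀ (A : Type) [Ring A] (D : Dat A) (M M' : Type)
  [AddCommGroup M] [Module A M] [AddCommGroup M'] [Module A M'] (i : M →ₗ[A] M'),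
  Cond D.ε (0, D.e₂, D.b) M → Tel D.ε D.e₂ D.e₁ D.a D.p i → Sol D.ε (0, D.q, 0) i

-- deps: OMEGA TEL TEL0 TEL1 TEL2
def S_ENV : Prop := ∀ (A : Type) [Ring A] (D : Dat A), Env D.ctx

/-! ### The cotorsion pair -/

-- deps:
def S_LLAA : Prop := ∀ (A : Type) [Ring A] (K : Ctx A) (M M' : Type) [AddCommGroup M]
  [Module A M] [AddCommGroup M'] [Module A M'] (i : M →ₗ[A] M'), LL K i →
  Injective i ∧ AA K (M' ⧸ LinearMap.range i)

-- deps: LLAA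
def S_COV : Prop := ∀ (A : Type) [Ring A] (K : Ctx A), Env K →
  ∀ (M : Type) [AddCommGroup M] [Module A M], ∃ (X : Type) (_ : AddCommGroup X)
    (_ : Module A X) (π : X →ₗ[A] M), SB K π ∧ AA K X

-- deps:
def S_RET : Prop := ∀ (A : Type) [Ring A] (J : Type) [PartialOrder J] [IsDirectedOrder J]
  [Nonempty J] (F : J ⥤ ModuleCat.{0} A) (s : Cocone F) (X : Type) [AddCommGroup X]
  [Module A X] (π : X →ₗ[A] s.pt), IsColimit s →
  (∀ j, ∃ h : F.obj j →ₗ[A] X, π ∘ₗ h = (s.ι.app j).hom) →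
  ∃ r : X →ₗ[A] Filter.Germ (Filter.atTop : Filter J) (LinearMap.ker π),
    ∀ b : LinearMap.ker π, r b = ((fun _ => b : J → LinearMap.ker π) : Filter.Germ _ _)

-- deps: GERM SHIFT FREE
def S_GBAER : Prop := ∀ (A : Type) [Ring A] (K : Ctx A) (Y X J : Type) [AddCommGroup Y]
  [Module A Y] [AddCommGroup X] [Module A X] (l : Filter J) (ι : Y →ₗ[A] X)
  (r : X →ₗ[A] Filter.Germ l Y), IsNoetherianRing A → Module.Baer A A → l.NeBot → BB K Y →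
  AA K X → (∀ b, r (ι b) = ((fun _ => b : J → Y) : Filter.Germ _ _)) → Module.Baer A Y

-- deps: COV RET GBAER
def S_AALIM : Prop := ∀ (A : Type) [Ring A] (K : Ctx A), Env K → IsNoetherianRing A →
  Module.Baer A A → ∀ X : ModuleCat.{0} A, Lim (fun Y => AA K Y) X → AA K X

-- deps:
def S_EXT1 : Prop := ∀ (A : Type) [Ring A] (X Y : ModuleCat.{0} A), ExtZ 1 X Y ↔ LiftP A X Y

-- deps:
def S_EXT2 : Prop := ∀ (A : Type) [Ring A] (X Y : ModuleCat.{0} A) (I Y' : Type)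
  [AddCommGroup I] [Module A I] [AddCommGroup Y'] [Module A Y'] (ι : Y →ₗ[A] I)
  (π : I →ₗ[A] Y') (n : ℕ), Injective ι → Exact ι π → Surjective π → Module.Injective A I →
  ExtZ (n + 1) X (ModuleCat.of A Y') → ExtZ (n + 1 + 1) X Y

-- deps: EXT1 EXT2 SHIFT LLAA COV
def S_CHCP : Prop := ∀ (A : Type) [Ring A] (K : Ctx A), Env K →
  CHCP (fun X : ModuleCat.{0} A => AA K X) (fun Y => BB K Y)

/-! ### The test module -/

-- deps:
def S_EXTEND : Prop := ∀ (A : Type) [Ring A] (K : Ctx A) (F Y : Type) [AddCommGroup F]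
  [Module A F] [AddCommGroup Y] [Module A Y] (N : Submodule A F) (μ : N →ₗ[A] Y),
  AA K (F ⧸ N) → BB K Y → ∃ ν : F →ₗ[A] Y, ν ∘ₗ N.subtype = μ

-- deps:
def S_INV : Prop := ∀ (k T m : Type) [Field k] [Ring T] [Algebra k T] [Fintype m]
  [DecidableEq m] (L : Loc k T) (Θ : Matrix m m T), Θ.map L.χ = 1 → IsUnit Θ

-- deps: INV
def S_NAK : Prop := ∀ (k T l m n : Type) [Field k] [Ring T] [Algebra k T] [Fintype l]
  [Fintype m] [Fintype n] (L : Loc k T) (D₀ : Matrix m l T) (D₁ : Matrix n m T), D₁ * D₀ = 0 →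
  (∀ v, (D₁.map L.χ).mulVec v = 0 → ∃ u, (D₀.map L.χ).mulVec u = v) →
  ∀ v, D₁.mulVec v = 0 → ∃ u, D₀.mulVec u = v

-- deps: NAK
def S_ORTH0 : Prop := ∀ (k T A n : Type) [Field k] [Ring T] [Algebra k T] [Ring A] [Fintype n]
  [DecidableEq n] (L : Loc k T) (ρ : A →+* Matrix n n T) (m₀ m₁ m₂ : ℕ)
  (d₁ : (Fin m₁ → A) →ₗ[A] (Fin m₀ → A)) (d₂ : (Fin m₂ → A) →ₗ[A] (Fin m₁ → A)),
  d₁ ∘ₗ d₂ = 0 →
  (∀ φ : (Fin m₁ → A) →ₗ[A] Col (L.red ρ), φ ∘ₗ d₂ = 0 → ∃ ψ, ψ ∘ₗ d₁ = φ) →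
  ∀ φ : (Fin m₁ → A) →ₗ[A] Col ρ, φ ∘ₗ d₂ = 0 → ∃ ψ, ψ ∘ₗ d₁ = φ

-- deps: ORTH0 EXTEND
def S_ORTH : Prop := ∀ (k T A n : Type) [Field k] [Ring T] [Algebra k T] [Ring A] [Fintype n]
  [DecidableEq n] (L : Loc k T) (ρ : A →+* Matrix n n T) (K : Ctx A) (X : Type)
  [AddCommGroup X] [Module A X], IsNoetherianRing A → BB K (Col (L.red ρ)) → AA K X →
  Module.Finite A X → LiftP A X (Col ρ)

-- deps:
def S_REP : Prop := ∀ (k T A : Type) [Field k] [Ring T] [Algebra k T] [Ring A] (L : Loc k T)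
  (D : Dat A) (ρ : A →+* Matrix (Fin 3) (Fin 3) T), Rep L D ρ →
  BB D.ctx (Col (L.red ρ)) ∧ (∀ v : Col ρ, D.ε • v = 0) ∧ ∃ v : Col ρ, D.q • v ≠ 0

-- deps: LLAA
def S_PURE : Prop := ∀ (A : Type) [Ring A] (K : Ctx A) (q : A) (N : Type) [AddCommGroup N]
  [Module A N], Env K → (0, q, 0) ∈ K.C → (∀ v : N, K.ε • v = 0) → (∃ v : N, q • v ≠ 0) →
  (∀ (X : Type) [AddCommGroup X] [Module A X], AA K X → Module.Finite A X → LiftP A X N) →
  ∃ X : ModuleCat.{0} A, AA K X ∧ ¬Lim (fun Y => AA K Y ∧ Module.Finite A Y) X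

-- deps: ALG BAER ENV CHCP AALIM COLIM ORTH REP PURE
def S_MAIN : Prop := ∀ (k : Type) [Field k], ∃ (A : Type) (_ : Ring A) (_ : Algebra k A),
  Module.Finite k A ∧ SymAlg k A ∧ Module.Injective A A ∧
  ∃ 𝒜 ℬ : ModuleCat.{0} A → Prop, CHCP 𝒜 ℬ ∧ (∀ X, Lim 𝒜 X → 𝒜 X) ∧ (∀ Y, Lim ℬ Y → ℬ Y) ∧
    ∃ X, 𝒜 X ∧ ¬Lim (fun Y => 𝒜 Y ∧ Module.Finite A Y) X

end Pool.Agent.P.MP_3d2265_gt.TC
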