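import Pool.Agent.P.MP_3d2265_gt.TC.Iface

/-! Step AALIM. -/

set_option autoImplicit false

namespace Pool.Agent.P.MP_3d2265_gt.TC

open CategoryTheory Limits Function

theorem p_AALIM (hCOV : S_COV) (hRET : S_RET) (hGBAER : S_GBAER) : S_AALIM := by
  rintro A _ K hE hN hB _ ⟨J, _, _, F, c, ⟨hc⟩, hF, rfl⟩
  obtain ⟨α, _, _, _, G, _⟩ := IsFiltered.exists_directed J
  obtain ⟨X, _, _, π, hπ, hX⟩ := hCOV A K hE c.pt
  obtain ⟨r, hr⟩ := hRET A α (G ⋙ F) (c.whisker G) X π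
    ((Functor.Final.isColimitWhiskerEquiv G c).symm hc) fun j => hF (G.obj j) X c.pt π hπ _
  have hb := hGBAER A K (LinearMap.ker π) X α Filter.atTop (LinearMap.ker π).subtype r hN hB
    inferInstance hπ.2 hX hr
  obtain ⟨ρ, hρ⟩ := hb.extension_property (LinearMap.ker π).subtype Subtype.val_injective
    LinearMap.id
  let σ := (LinearMap.ker π).liftQ (LinearMap.id - (LinearMap.ker π).subtype ∘ₗ ρ) fun x hx => by
    have : ρ x = ⟨x, hx⟩ := LinearMap.congr_fun hρ ⟨x, hx⟩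
    rw [LinearMap.mem_ker, LinearMap.sub_apply, LinearMap.comp_apply, this]
    exact sub_self x
  refine hX.retract (σ ∘ₗ (π.quotKerEquivOfSurjective hπ.1).symm.toLinearMap) π fun m => ?_
  obtain ⟨x, rfl⟩ := hπ.1 m
  have e : (π.quotKerEquivOfSurjective hπ.1).symm (π x) = Submodule.Quotient.mk x :=
    (LinearEquiv.symm_apply_eq _).2 rfl
  rw [LinearMap.comp_apply, LinearEquiv.coe_coe, e]
  change π (x - (ρ x).1) = π x
  rw [map_sub, (ρ x).2, sub_zero]

end Pool.Agent.P.MP_3d2265_gt.TC
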