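import Pool.Agent.P.MP_3d2265_gt.TC.Iface

/-! Step ALG. -/

set_option autoImplicit false

namespace Pool.Agent.P.MP_3d2265_gt.TC

open CategoryTheory Limits Function

theorem p_ALG (hTT : S_TT) (hLAM : S_LAM) (hTE : S_TE) (hDN : S_DN) : S_ALG := by
  classical
  intro k _
  obtain ⟨T, _, _, L, q, y, w, hq0, hχ, hrel⟩ := hTT k
  obtain ⟨Λ, hfin, hd, hS⟩ := hLAM k T {1, q, y, w, y * q, y * q * q}
  obtain ⟨B, _, _, σ, τ, hBf, hBs, hτσ⟩ := hTE k Λ hfin
  obtain ⟨A, _, _, σ', τ', ε, hAf, hAs, hτσ', hτε, hcen, hεε, hann⟩ := hDN k B hBf hBs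
  let j : Λ →+* A := σ'.comp σ
  let ρ : A →+* Matrix (Fin 3) (Fin 3) T := (Λ.val.toRingHom.comp τ).comp τ'
  have hρ : ∀ l : Λ, ρ (j l) = l.1 := fun l => by
    change (τ (τ' (σ' (σ l)))).1 = l.1
    rw [hτσ', hτσ]
  have key : ∀ u v t : Λ, u.1 * v.1 = t.1 → j u * j v = j t := fun u v t h => by
    rw [← map_mul]
    exact congrArg j (Subtype.ext h)
  have key2 : ∀ u v u' v' : Λ, u.1 * v.1 = u'.1 * v'.1 → j u * j v = j u' * j v' :=
    fun u v u' v' h => by
      rw [← map_mul, ← map_mul]
      exact congrArg j (Subtype.ext h)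
  have m1 := hS 1 (by simp)
  have mq := hS q (by simp)
  have my := hS y (by simp)
  have mw := hS w (by simp)
  have mp := hS (y * q) (by simp)
  have mx := hS (y * q * q) (by simp)
  let D : Dat A :=
    { ε := ε
      e₁ := j ⟨_, hd 0⟩
      e₂ := j ⟨_, hd 1⟩
      e₃ := j ⟨_, hd 2⟩
      a := j ⟨_, m1.1⟩
      x := j ⟨_, mx.1⟩
      p := j ⟨_, mp.1⟩
      y := j ⟨_, my.1⟩
      b := j ⟨_, m1.2⟩
      q := j ⟨_, mq.2⟩
      w := j ⟨_, mw.2⟩
      cen := hcen
      εε := hεε
      ann := hann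
      e₁₁ := key _ _ _ (by simp only [Matrix.single_mul_single_same, one_mul])
      e₂₂ := key _ _ _ (by simp only [Matrix.single_mul_single_same, one_mul])
      e₃₃ := key _ _ _ (by simp only [Matrix.single_mul_single_same, one_mul])
      e₁a := key _ _ _ (by simp only [Matrix.single_mul_single_same, one_mul])
      ae₂ := key _ _ _ (by simp only [Matrix.single_mul_single_same, one_mul])
      e₁p := key _ _ _ (by simp only [Matrix.single_mul_single_same, one_mul])
      pe₂ := key _ _ _ (by simp only [Matrix.single_mul_single_same, mul_one])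
      e₁x := key _ _ _ (by simp only [Matrix.single_mul_single_same, one_mul])
      e₂b := key _ _ _ (by simp only [Matrix.single_mul_single_same, one_mul])
      be₃ := key _ _ _ (by simp only [Matrix.single_mul_single_same, one_mul])
      e₂q := key _ _ _ (by simp only [Matrix.single_mul_single_same, one_mul])
      e₂w := key _ _ _ (by simp only [Matrix.single_mul_single_same, one_mul])
      r₁ := key2 _ _ _ _ (by simp only [Matrix.single_mul_single_same, mul_one])
      r₂ := key2 _ _ _ _ (by simp only [Matrix.single_mul_single_same, one_mul, hrel])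
      r₃ := key2 _ _ _ _ (by simp only [Matrix.single_mul_single_same, mul_one]) }
  refine ⟨T, _, _, L, A, _, _, D, ρ, hAf, hAs, ?_, hρ _, hρ _, hρ _, hρ _, hρ _,
    q, hq0, hχ, hρ _⟩
  change (τ (τ' ε)).1 = 0
  rw [hτε, map_zero]
  rfl

end Pool.Agent.P.MP_3d2265_gt.TC
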