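import Pool.Agent.P.MP_3d2265_gt.TC.Iface

/-! Step BAER. -/

set_option autoImplicit false

namespace Pool.Agent.P.MP_3d2265_gt.TC

open CategoryTheory Limits Function

theorem p_BAER : S_BAER := by
  rintro k A _ _ _ _ ⟨l, h1, h2⟩
  refine ⟨isNoetherianRing_iff.2 (isNoetherian_of_tower k inferInstance), fun I g => ?_⟩
  let Φ : A →ₗ[k] Module.Dual k A := (LinearMap.mul k A).compr₂ l
  have hi : Injective Φ := (injective_iff_map_eq_zero Φ).2 fun a ha =>
    h2 a fun b => LinearMap.congr_fun ha b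
  obtain ⟨φ, hφ⟩ := LinearMap.exists_extend (p := I.restrictScalars k) (l ∘ₗ g.restrictScalars k)
  obtain ⟨c, rfl⟩ := (LinearMap.injective_iff_surjective_of_finrank_eq_finrank
    Subspace.dual_finrank_eq.symm).1 hi φ
  refine ⟨LinearMap.toSpanSingleton A A c, fun x hx => sub_eq_zero.1 (h2 _ fun u => ?_)⟩
  have e : l (c * (u * x)) = l (g (u • ⟨x, hx⟩)) := LinearMap.congr_fun hφ ⟨_, I.mul_mem_left u hx⟩
  rw [h1, mul_sub, map_sub, LinearMap.toSpanSingleton_apply, smul_eq_mul, ← mul_assoc, h1, e,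
    map_smul, smul_eq_mul, sub_self]

end Pool.Agent.P.MP_3d2265_gt.TC
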