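import Pool.Agent.P.MP_3d2265_gt.TC.Iface

/-! Step CHCP. -/

set_option autoImplicit false

namespace Pool.Agent.P.MP_3d2265_gt.TC

open CategoryTheory Limits Function

namespace CHCPx

variable {A : Type} [Ring A] {K : Ctx A} {L M N : Type} [AddCommGroup L] [Module A L]
  [AddCommGroup M] [Module A M] [AddCommGroup N] [Module A N]

theorem ses {ι : L →ₗ[A] M} {π : M →ₗ[A] N} (hι : Injective ι) (ex : Exact ι π)
    (hπ : Surjective π) : SES (ModuleCat.of A L) (ModuleCat.of A M) (ModuleCat.of A N) :=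
  ⟨ModuleCat.ofHom ι, ModuleCat.ofHom π, ModuleCat.hom_ext ex.linearMap_comp_eq_zero,
    ModuleCat.shortComplex_shortExact _ ex hι hπ⟩

theorem lift (h : AA K M) (h' : BB K N) : LiftP A M N :=
  fun E E' _ _ _ _ _ π hι ex hπ => h E E' π (SB.of_exact h' hι ex hπ)

theorem ret {ι : L →ₗ[A] M} {π : M →ₗ[A] N} (hι : Injective ι) (ex : Exact ι π)
    (s : N →ₗ[A] M) (hs : π ∘ₗ s = LinearMap.id) : ∃ r : M →ₗ[A] L, ∀ x, r (ι x) = x := by
  have h : ∀ m, (LinearMap.id - s ∘ₗ π : M →ₗ[A] M) m ∈ LinearMap.range ι := fun m =>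
    (ex _).1 (by
      have := LinearMap.congr_fun hs (π m)
      simp only [LinearMap.comp_apply, LinearMap.id_apply] at this
      simp [this])
  refine ⟨(LinearEquiv.ofInjective ι hι).symm.toLinearMap ∘ₗ LinearMap.codRestrict _ _ h,
    fun x => ?_⟩
  refine (LinearEquiv.symm_apply_eq _).2 (Subtype.ext ?_)
  simp [ex.apply_apply_eq_zero]

end CHCPx

open CHCPx in
theorem p_CHCP (hEXT1 : S_EXT1) (hEXT2 : S_EXT2) (hSHIFT : S_SHIFT) (hLLAA : S_LLAA) (hCOV : S_COV) : S_CHCP := by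
  intro A _ K hE
  refine ⟨fun X => ⟨fun h Y h' => (hEXT1 A X Y).2 (lift h h'), fun h E E' _ _ _ _ π hπ => ?_⟩,
    fun Y => ⟨fun h' X h => (hEXT1 A X Y).2 (lift h h'), fun h => ?_⟩, fun n X Y h h' => ?_,
    fun M => ?_, fun M => ?_⟩
  · exact (hEXT1 A X _).1 (h (ModuleCat.of A (LinearMap.ker π)) hπ.2) E E' _ π
      Subtype.val_injective (LinearMap.exact_subtype_ker_map π) hπ.1
  · obtain ⟨B, _, _, i, h1, h2⟩ := hE Y
    obtain ⟨h3, h4⟩ := hLLAA A K Y B i h1
    obtain ⟨s, hs⟩ := (hEXT1 A _ Y).1 (h (ModuleCat.of A (B ⧸ LinearMap.range i)) h4) B _ i _ h3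
      (LinearMap.exact_map_mkQ_range i) (Submodule.mkQ_surjective _) LinearMap.id
    obtain ⟨r, hr⟩ := ret h3 (LinearMap.exact_map_mkQ_range i) s hs
    exact h2.retract i r hr
  · induction n generalizing Y with
    | zero => exact (hEXT1 A X Y).2 (lift h h')
    | succ n ih =>
      obtain ⟨I, _, _, ι, h1, h2⟩ := exists_inj A Y
      exact hEXT2 A X Y I _ ι _ n h1 (LinearMap.exact_map_mkQ_range ι)
        (Submodule.mkQ_surjective _) h2 (ih _ fun c hc =>
          (hSHIFT A K c Y I _ ι _ h1 (LinearMap.exact_map_mkQ_range ι)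
            (Submodule.mkQ_surjective _) acyc_inj).1 (h' c hc))
  · obtain ⟨X, _, _, π, h1, h2⟩ := hCOV A K hE M
    exact ⟨ModuleCat.of A (LinearMap.ker π), ModuleCat.of A X, h1.2, h2,
      ses Subtype.val_injective (LinearMap.exact_subtype_ker_map π) h1.1⟩
  · obtain ⟨B, _, _, i, h1, h2⟩ := hE M
    obtain ⟨h3, h4⟩ := hLLAA A K M B i h1
    exact ⟨ModuleCat.of A B, ModuleCat.of A (B ⧸ LinearMap.range i), h2, h4,
      ses h3 (LinearMap.exact_map_mkQ_range i) (Submodule.mkQ_surjective _)⟩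

end Pool.Agent.P.MP_3d2265_gt.TC
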