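import Pool.Agent.P.MP_3d2265_gt.TC.Iface

/-! Step COLIM. -/

set_option autoImplicit false

namespace Pool.Agent.P.MP_3d2265_gt.TC

open CategoryTheory Limits Function

theorem p_COLIM : S_COLIM := by
  intro A _ ε c J _ _ F s hs H z u hz hu
  obtain ⟨j₁, z₁, rfl⟩ := colim_rep hs z
  obtain ⟨j₂, u₂, rfl⟩ := colim_rep hs u
  rw [← colim_w s (IsFiltered.leftToMax j₁ j₂)] at hz hu ⊢
  rw [← colim_w s (IsFiltered.rightToMax j₁ j₂) u₂] at hu
  generalize (F.map (IsFiltered.leftToMax j₁ j₂)).hom z₁ = z at *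
  generalize (F.map (IsFiltered.rightToMax j₁ j₂)).hom u₂ = u at *
  generalize IsFiltered.max j₁ j₂ = j at *
  obtain ⟨j₃, f, hf⟩ := colim_eq hs (y := ε • z) (y' := 0) (by rw [map_smul, hz, map_zero])
  obtain ⟨j₄, g, hg⟩ := colim_eq hs (y := c.1 • (F.map f).hom z) (y' := ε • (F.map f).hom u)
    (by rw [map_smul, map_smul, colim_w, colim_w, hu])
  obtain ⟨j₅, l, hl⟩ := H j₄
  obtain ⟨z', u', a, e⟩ := hl ((F.map g).hom ((F.map f).hom z)) ((F.map g).hom ((F.map f).hom u))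
    (by rw [← map_smul, ← map_smul, hf, map_zero, map_zero]) (by rw [← map_smul, hg, map_smul])
  refine ⟨(s.ι.app j₅).hom z', (s.ι.app j₅).hom u', by rw [← map_smul, a, map_zero], ?_⟩
  have := congrArg (s.ι.app j₅).hom e
  rwa [map_smul, colim_w, colim_w, colim_w, map_add, map_smul, map_smul] at this

end Pool.Agent.P.MP_3d2265_gt.TC
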