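import Pool.Agent.P.MP_3d2265_gt.TC.Iface

/-! Step COV. -/

set_option autoImplicit false

namespace Pool.Agent.P.MP_3d2265_gt.TC

open CategoryTheory Limits Function

theorem p_COV (hLLAA : S_LLAA) : S_COV := by
  intro A _ K hE M _ _
  let p : (M →₀ A) →ₗ[A] M := Finsupp.linearCombination A id
  have hp : Surjective p := Finsupp.linearCombination_id_surjective A M
  obtain ⟨B, _, _, i, li, hB⟩ := hE (LinearMap.ker p)
  let R : Submodule A ((M →₀ A) × B) := LinearMap.range ((LinearMap.ker p).subtype.prod (-i))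
  refine ⟨_, _, _, R.liftQ (p.coprod 0) ?_, SB.of_exact (ι := R.mkQ ∘ₗ LinearMap.inr A _ _) hB
    ((injective_iff_map_eq_zero _).2 fun b hb => ?_) (fun x => ?_) fun m => ?_,
    fun E E' _ _ _ _ π hπ g => ?_⟩
  · rintro _ ⟨n, rfl⟩; simp
  · obtain ⟨n, hn⟩ := (Submodule.Quotient.mk_eq_zero _).1 hb
    have h1 : n = 0 := Subtype.ext (congrArg Prod.fst hn)
    rw [h1, map_zero] at hn
    exact (congrArg Prod.snd hn).symm
  · obtain ⟨⟨u, b⟩, rfl⟩ := R.mkQ_surjective x
    constructor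
    · intro h
      have hu : u ∈ LinearMap.ker p := by simpa using h
      exact ⟨b + i ⟨u, hu⟩, ((Submodule.Quotient.eq R).2 ⟨⟨u, hu⟩, by simp⟩).symm⟩
    · rintro ⟨b', e⟩
      rw [← e]; simp
  · obtain ⟨u, rfl⟩ := hp m
    exact ⟨R.mkQ (u, 0), by simp⟩
  · obtain ⟨f, hf⟩ := Module.projective_lifting_property π
      (g ∘ₗ R.mkQ ∘ₗ LinearMap.inl A _ _) hπ.1
    obtain ⟨h, a, b⟩ := li E E' π hπ (f ∘ₗ (LinearMap.ker p).subtype)
      (g ∘ₗ R.mkQ ∘ₗ LinearMap.inr A _ _) (LinearMap.ext fun n =>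
        (LinearMap.congr_fun hf n).trans (congrArg g
          ((Submodule.Quotient.eq R).2 ⟨n, by simp⟩)))
    refine ⟨R.liftQ (f.coprod h) ?_, R.linearMap_qext (LinearMap.prod_ext ?_ ?_)⟩
    · rintro _ ⟨n, rfl⟩
      have := LinearMap.congr_fun a n
      simp only [LinearMap.comp_apply] at this
      simp [this]
    · refine LinearMap.ext fun m => ?_
      simpa using LinearMap.congr_fun hf m
    · refine LinearMap.ext fun m => ?_
      simpa using LinearMap.congr_fun b m

end Pool.Agent.P.MP_3d2265_gt.TC
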