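import Pool.Agent.P.MP_3d2265_gt.TC.Iface

/-! Step DN. -/

set_option autoImplicit false

namespace Pool.Agent.P.MP_3d2265_gt.TC

open CategoryTheory Limits Function

theorem p_DN : S_DN := by
  intro k B _ _ _ hB ⟨l, l1, l2⟩
  refine ⟨DualNumber B, inferInstance, inferInstance, TrivSqZeroExt.inlHom B B,
    (TrivSqZeroExt.fstHom k B B).toRingHom, DualNumber.eps, ?_, ?_, fun _ => rfl, rfl,
    fun r => (DualNumber.commute_eps_left r).eq, DualNumber.eps_mul_eps, fun r hr => ?_⟩
  · exact (inferInstance : Module.Finite k (B × B))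
  · refine ⟨l ∘ₗ (LinearMap.snd k B B : B × B →ₗ[k] B), fun a b => ?_, fun a ha => ?_⟩
    · change l (a * b).snd = l (b * a).snd
      rw [DualNumber.snd_mul, DualNumber.snd_mul, map_add, map_add, l1 a.fst, l1 a.snd, add_comm]
    · have h : ∀ b : DualNumber B, l (a.fst * b.snd + a.snd * b.fst) = 0 := fun b => by
        rw [← DualNumber.snd_mul]; exact ha b
      refine TrivSqZeroExt.ext (l2 _ fun b => ?_) (l2 _ fun b => ?_)
      · simpa using h (TrivSqZeroExt.inr b)
      · simpa using h (TrivSqZeroExt.inl b)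
  · have h : r.fst = 0 := by
      have := congrArg TrivSqZeroExt.snd hr
      simpa [DualNumber.snd_mul] using this
    refine ⟨TrivSqZeroExt.inl r.snd, TrivSqZeroExt.ext ?_ ?_⟩
    · simp [h]
    · simp

end Pool.Agent.P.MP_3d2265_gt.TC
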