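import Pool.Agent.P.MP_3d2265_gt.TC.Iface

/-! Step ENV. -/

set_option autoImplicit false

namespace Pool.Agent.P.MP_3d2265_gt.TC

open CategoryTheory Limits Function

theorem p_ENV (hOMEGA : S_OMEGA) (hTEL : S_TEL) (hTEL0 : S_TEL0) (hTEL1 : S_TEL1) (hTEL2 : S_TEL2) : S_ENV := by
  intro A _ D M _ _
  have t1 : TR D.e₂ D.e₁ D.a 0 := ⟨D.e₂₂, D.e₁₁, D.e₁a, D.ae₂, mul_zero _, zero_mul _⟩
  have t2 : TR D.e₃ D.e₂ D.b 0 := ⟨D.e₃₃, D.e₂₂, D.e₂b, D.be₃, mul_zero _, zero_mul _⟩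
  have t3 : TR D.e₂ D.e₁ D.a D.p := ⟨D.e₂₂, D.e₁₁, D.e₁a, D.ae₂, D.e₁p, D.pe₂⟩
  have c0 : ∀ (Y : Type) [AddCommGroup Y] [Module A Y], Cond D.ctx.ε (0, 0, 0) Y :=
    fun Y _ _ z u _ _ => ⟨0, 0, smul_zero _, by simp⟩
  have c1 : ∀ (Y : Type) [AddCommGroup Y] [Module A Y], BB D.ctx Y → Cond D.ctx.ε (0, D.p, 0) Y :=
    fun Y _ _ h z u hz _ => by
      obtain ⟨z', u', a, e⟩ := h (0, D.e₂, D.b) (by simp [Dat.ctx]) z 0 hz (by simp)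
      obtain ⟨z'', u'', -, e'⟩ := h (0, D.q, 0) (by simp [Dat.ctx]) z' 0 a (by simp)
      refine ⟨0, D.y • u'' + D.p • u', smul_zero _, ?_⟩
      dsimp only at e e' ⊢
      rw [zero_smul, zero_add] at e'
      rw [← D.pe₂, mul_smul, e, smul_add, smul_smul, D.r₃, mul_smul, e', smul_zero, zero_add,
        smul_add, D.ctx.sc, D.ctx.sc, D.pe₂]
  have s0 := hOMEGA A D.ctx {(0, D.e₁, D.a), (D.a, D.e₂, 0), (0, D.e₂, D.b), (D.b, D.e₃, 0)}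
    fun M _ _ => by
      obtain ⟨M₁, _, _, i, li, ti⟩ := hTEL A D.ctx _ _ _ _ t1 (fun Y _ _ h => hTEL0 A D.ctx _ _ _ _ Y
        t1 (h _ (by simp [Dat.ctx])) (h _ (by simp [Dat.ctx])) (c0 Y)) M
      obtain ⟨M₂, _, _, j, lj, tj⟩ := hTEL A D.ctx _ _ _ _ t2 (fun Y _ _ h => hTEL0 A D.ctx _ _ _ _ Y
        t2 (h _ (by simp [Dat.ctx])) (h _ (by simp [Dat.ctx])) (c0 Y)) M₁
      obtain ⟨a1, a2⟩ := hTEL1 A D.ctx _ _ _ _ _ i t1 ti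
      obtain ⟨a3, a4⟩ := hTEL1 A D.ctx _ _ _ _ _ j t2 tj
      refine ⟨M₂, _, _, j ∘ₗ i, li.comp lj, ?_⟩
      rintro _ (rfl | rfl | rfl | rfl)
      exacts [a1.comp_left j, a2.comp_left j, a3.comp_right i, a4.comp_right i]
  refine hOMEGA A D.ctx D.ctx.C (fun M _ _ => ?_) M
  obtain ⟨M₁, _, _, i, li, ci⟩ := s0 M
  obtain ⟨M₂, _, _, j, lj, tj⟩ := hTEL A D.ctx _ _ _ _ t3 (fun Y _ _ h => hTEL0 A D.ctx _ _ _ _ Y
    t3 (h _ (by simp [Dat.ctx])) (h _ (by simp [Dat.ctx])) (c1 Y h)) M₁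
  have key : ∀ c, Cond D.ctx.ε c M₁ → Sol D.ctx.ε c (j ∘ₗ i) :=
    fun c h => (h.sol.comp_left j).comp_right i
  refine ⟨M₂, _, _, j ∘ₗ i, li.comp lj, ?_⟩
  rintro _ (rfl | rfl | rfl | rfl | rfl)
  exacts [key _ (ci _ (by simp)), key _ (ci _ (by simp)), key _ (ci _ (by simp)),
    key _ (ci _ (by simp)), (hTEL2 A D _ _ j (ci _ (by simp)) tj).comp_right i]

end Pool.Agent.P.MP_3d2265_gt.TC
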