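import Pool.Agent.P.MP_3d2265_gt.TC.Iface

/-! Step EXT1. -/

set_option autoImplicit false

namespace Pool.Agent.P.MP_3d2265_gt.TC

open CategoryTheory Limits Function

namespace EXT1x

variable {A : Type} [Ring A] (Y : ModuleCat.{0} A) {E E' : Type} [AddCommGroup E] [Module A E]
  [AddCommGroup E'] [Module A E']

/-- The short complex of two linear maps. -/
noncomputable def sc (ι : Y →ₗ[A] E) (π : E →ₗ[A] E') (ex : Exact ι π) :
    ShortComplex (ModuleCat.{0} A) :=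
  ShortComplex.mk (X₁ := Y) (X₂ := ModuleCat.of A E) (X₃ := ModuleCat.of A E')
    (ModuleCat.ofHom ι) (ModuleCat.ofHom π)
    (ModuleCat.hom_ext ex.linearMap_comp_eq_zero)

theorem sc_exact (ι : Y →ₗ[A] E) (π : E →ₗ[A] E') (ex : Exact ι π) (hι : Injective ι)
    (hπ : Surjective π) : (sc Y ι π ex).ShortExact :=
  ModuleCat.shortComplex_shortExact _ ex hι hπ

end EXT1x

open Abelian in
theorem p_EXT1 : S_EXT1 := by
  intro A _ X Y
  constructor
  · intro hZ E E' _ _ _ _ ι π hι ex hπ g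
    have hS := EXT1x.sc_exact Y ι π ex hι hπ
    have hsub : Subsingleton (Ext X (EXT1x.sc Y ι π ex).X₁ 1) := hZ
    obtain ⟨x₂, hx⟩ := Ext.covariant_sequence_exact₃ X hS
      (Ext.mk₀ (X := X) (Y := (EXT1x.sc Y ι π ex).X₃) (ModuleCat.ofHom g)) (zero_add 1)
      (Subsingleton.elim _ _)
    obtain ⟨h, rfl⟩ := (Ext.mk₀_bijective _ _).2 x₂
    rw [Ext.mk₀_comp_mk₀] at hx
    have e := (Ext.mk₀_bijective _ _).1 hx
    exact ⟨h.hom, congrArg ModuleCat.Hom.hom e⟩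
  · intro hL
    obtain ⟨I, _, _, ι, hι, hI⟩ := exists_inj A Y
    have ex := ι.exact_map_mkQ_range
    have hπ := (LinearMap.range ι).mkQ_surjective
    have hS := EXT1x.sc_exact Y ι _ ex hι hπ
    have hI' : CategoryTheory.Injective (EXT1x.sc Y ι _ ex).X₂ :=
      (Module.injective_iff_injective_object A I).1 hI
    refine subsingleton_of_forall_eq 0 fun x => ?_
    obtain ⟨x₃, hx⟩ := Ext.covariant_sequence_exact₁ X hS x
      (Ext.eq_zero_of_injective (n := 0) _) (zero_add 1)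
    obtain ⟨g, rfl⟩ := (Ext.mk₀_bijective _ _).2 x₃
    obtain ⟨h, e⟩ := hL _ _ ι _ hι ex hπ g.hom
    obtain ⟨h', e'⟩ : ∃ h' : X ⟶ (EXT1x.sc Y ι _ ex).X₂, g = h' ≫ (EXT1x.sc Y ι _ ex).g :=
      ⟨ModuleCat.ofHom h, ModuleCat.hom_ext e.symm⟩
    rw [← hx, e', ← Ext.mk₀_comp_mk₀, Ext.comp_assoc_of_second_deg_zero,
      hS.comp_extClass, Ext.comp_zero]
    rfl

end Pool.Agent.P.MP_3d2265_gt.TC
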