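import Pool.Agent.P.MP_3d2265_gt.TC.Iface

/-! Step EXT2. -/

set_option autoImplicit false

namespace Pool.Agent.P.MP_3d2265_gt.TC

open CategoryTheory Limits Function

theorem p_EXT2 : S_EXT2 := by
  intro A _ X Y I Y' _ _ _ _ ι π n hι ex hπ hI h
  let S : ShortComplex (ModuleCat.{0} A) :=
    ShortComplex.mk (X₁ := Y) (ModuleCat.ofHom ι) (ModuleCat.ofHom π) (by
      ext y
      exact ex.apply_apply_eq_zero y)
  have hS : S.ShortExact := ModuleCat.shortComplex_shortExact S ex hι hπ
  have : CategoryTheory.Injective S.X₂ := Module.injective_object_of_injective_module A I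
  refine subsingleton_of_forall_eq 0 fun x => ?_
  obtain ⟨x₃, e⟩ := Abelian.Ext.covariant_sequence_exact₁ X hS x
    (Abelian.Ext.eq_zero_of_injective _) (n₀ := n + 1) rfl
  have h' : Subsingleton (Abelian.Ext X S.X₃ (n + 1)) := h
  rw [← e, Subsingleton.elim x₃ 0, Abelian.Ext.zero_comp]

end Pool.Agent.P.MP_3d2265_gt.TC
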