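import Pool.Agent.P.MP_3d2265_gt.TC.Iface

/-! Step GBAER. -/

set_option autoImplicit false

namespace Pool.Agent.P.MP_3d2265_gt.TC

open CategoryTheory Limits Function

theorem p_GBAER (hGERM : S_GERM) (hSHIFT : S_SHIFT) (hFREE : S_FREE) : S_GBAER := by
  intro A _ K Y X J _ _ _ _ l ι r hN hB hl hY hX hr I φ
  have hκ : Surjective (Finsupp.linearCombination A (id : Filter.Germ l Y → Filter.Germ l Y)) :=
    Finsupp.linearCombination_id_surjective A _
  have hS : SB K (Finsupp.linearCombination A (id : Filter.Germ l Y → Filter.Germ l Y)) :=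
    ⟨hκ, fun c hc => (hSHIFT A K c _ _ _ (LinearMap.ker _).subtype _ Subtype.val_injective
      (LinearMap.exact_subtype_ker_map _) hκ (acyc_free _)).2 (hGERM A K.ε c Y J l (hY c hc))⟩
  obtain ⟨rt, hrt⟩ := hX _ _ _ hS r
  obtain ⟨g, hg⟩ := hFREE A hN hB (Filter.Germ l Y) I (rt ∘ₗ ι ∘ₗ φ)
  obtain ⟨b, hb⟩ := Quotient.exists_rep
    (Finsupp.linearCombination A (id : Filter.Germ l Y → Filter.Germ l Y) (g 1))
  have key : ∀ (x : A) (hx : x ∈ I), ∀ᶠ j in l, φ ⟨x, hx⟩ = x • b j := fun x hx => by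
    have e : ((fun _ => φ ⟨x, hx⟩ : J → Y) : Filter.Germ l Y) = x • (b : Filter.Germ l Y) := by
      have e1 : (b : Filter.Germ l Y) = _ := hb
      rw [← hr, e1, ← map_smul, ← map_smul, smul_eq_mul, mul_one, hg x hx]
      exact (LinearMap.congr_fun hrt _).symm
    rw [← Filter.Germ.coe_smul] at e
    exact Filter.Germ.coe_eq.1 e
  obtain ⟨S, hS'⟩ := (isNoetherian_def.1 hN) I
  have hsub : ∀ x ∈ S, x ∈ I := fun x hx => hS' ▸ Submodule.subset_span hx
  have h2 : ∀ᶠ j in l, ∀ x ∈ S.attach, φ ⟨x.1, hsub x.1 x.2⟩ = x.1 • b j :=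
    (Filter.eventually_all_finset _).2 fun x _ => key x.1 _
  obtain ⟨j, hj⟩ := h2.exists
  refine ⟨LinearMap.toSpanSingleton A Y (b j), fun x hx => ?_⟩
  subst hS'
  rw [LinearMap.toSpanSingleton_apply]
  induction hx using Submodule.span_induction with
  | mem x hx => exact (hj ⟨x, hx⟩ (Finset.mem_attach _ _)).symm
  | zero => rw [zero_smul]; exact (map_zero φ).symm
  | add x y hx hy a b => rw [add_smul, a, b, ← map_add]; rfl
  | smul c x hx a => rw [smul_assoc, a, ← map_smul]; rfl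

end Pool.Agent.P.MP_3d2265_gt.TC
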