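import Pool.Agent.P.MP_3d2265_gt.TC.Iface

/-! Step GERM. -/

set_option autoImplicit false

namespace Pool.Agent.P.MP_3d2265_gt.TC

open CategoryTheory Limits Function

theorem p_GERM : S_GERM := by
  intro A _ ε c Y J _ _ l h z u
  refine Filter.Germ.inductionOn₂ z u fun z u hz hu => ?_
  have H : ∀ j, ∃ z' u' : Y, ε • z j = 0 → c.1 • z j = ε • u j →
      ε • z' = 0 ∧ c.2.1 • z j = c.2.2 • z' + ε • u' := fun j => by
    by_cases e : ε • z j = 0 ∧ c.1 • z j = ε • u j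
    · obtain ⟨z', u', a⟩ := h _ _ e.1 e.2
      exact ⟨z', u', fun _ _ => a⟩
    · exact ⟨0, 0, fun a b => (e ⟨a, b⟩).elim⟩
  choose z' u' H using H
  have e1 : ∀ᶠ j in l, ε • z j = 0 := Filter.Germ.coe_eq.1 hz
  have e2 : ∀ᶠ j in l, c.1 • z j = ε • u j := Filter.Germ.coe_eq.1 hu
  refine ⟨z', u', Filter.Germ.coe_eq.2 ?_, Filter.Germ.coe_eq.2 ?_⟩
  · filter_upwards [e1, e2] with j a b using (H j a b).1
  · filter_upwards [e1, e2] with j a b using (H j a b).2

end Pool.Agent.P.MP_3d2265_gt.TC
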