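import Pool.Agent.P.MP_3d2265_gt.TC.Iface

/-! Step INV. -/

set_option autoImplicit false

namespace Pool.Agent.P.MP_3d2265_gt.TC

open CategoryTheory Limits Function

namespace INVx

theorem left_inv {k T m : Type} [Field k] [Ring T] [Algebra k T] [Fintype m] [DecidableEq m]
    (L : Loc k T) (Θ : Matrix m m T) (h : Θ.map L.χ = 1) : ∃ z : Matrix m m T, z * Θ = 1 := by
  have h1 : Θ - 1 ∈ ((⊥ : Ideal T).jacobson).matrix m := by
    intro i j
    have e : L.χ ((Θ - 1) i j) = 0 := by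
      have := congrFun (congrFun h i) j
      rw [Matrix.map_apply] at this
      rw [Matrix.sub_apply, map_sub, this, Matrix.one_apply, Matrix.one_apply]
      split_ifs <;> simp
    change (Θ - 1) i j ∈ (⊥ : Ideal T).jacobson
    rw [Ideal.mem_jacobson_iff]
    intro y
    obtain ⟨u, hu⟩ := L.unit (y * (Θ - 1) i j + 1) (by simp only [map_add, map_mul, e]; simp)
    refine ⟨↑u⁻¹, ?_⟩
    rw [Ideal.mem_bot, mul_assoc, ← mul_add_one, ← hu]
    simp
  have h2 := Ideal.matrix_jacobson_le (n := m) (⊥ : Ideal T) h1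
  rw [Ideal.matrix_bot, Ideal.mem_jacobson_iff] at h2
  obtain ⟨z, hz⟩ := h2 1
  refine ⟨z, ?_⟩
  rw [Ideal.mem_bot, mul_one, mul_sub, mul_one, sub_add_cancel, sub_eq_zero] at hz
  exact hz

end INVx

theorem p_INV : S_INV := by
  intro k T m _ _ _ _ _ L Θ h
  obtain ⟨z, hz⟩ := INVx.left_inv L Θ h
  have hz1 : z.map L.χ = 1 := by
    have e : (z * Θ).map L.χ = z.map L.χ * Θ.map L.χ :=
      Matrix.map_mul (f := (L.χ : T →+* k))
    rw [hz, h, mul_one] at e
    rw [← e]
    exact Matrix.map_one _ (map_zero _) (map_one _)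
  obtain ⟨w, hw⟩ := INVx.left_inv L z hz1
  have e : w = Θ := by
    calc w = w * (z * Θ) := by rw [hz, mul_one]
      _ = Θ := by rw [← mul_assoc, hw, one_mul]
  rw [e] at hw
  exact ⟨⟨Θ, z, hw, hz⟩, rfl⟩

end Pool.Agent.P.MP_3d2265_gt.TC
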