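import Pool.Agent.P.MP_3d2265_gt.TC.Iface

/-! Step LAM. -/

set_option autoImplicit false

namespace Pool.Agent.P.MP_3d2265_gt.TC

open CategoryTheory Limits Function

namespace LAMx

variable {k T : Type} [Field k] [Ring T] [Algebra k T]

/-- The allowed entries. -/
def V (F : Submodule k T) (i j : Fin 3) : Submodule k T :=
  if i ≤ j then F ^ (j.val - i.val) else ⊥

theorem V_mul (F : Submodule k T) (i j l : Fin 3) {x y : T} (hx : x ∈ V F i j)
    (hy : y ∈ V F j l) : x * y ∈ V F i l := by
  unfold V at hx hy ⊢
  by_cases h1 : i ≤ j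
  · by_cases h2 : j ≤ l
    · rw [if_pos h1] at hx
      rw [if_pos h2] at hy
      rw [if_pos (h1.trans h2)]
      have e : l.val - i.val = (j.val - i.val) + (l.val - j.val) := by
        have := Fin.le_def.1 h1
        have := Fin.le_def.1 h2
        omega
      rw [e, pow_add]
      exact Submodule.mul_mem_mul hx hy
    · rw [if_neg h2, Submodule.mem_bot] at hy
      rw [hy, mul_zero]
      exact Submodule.zero_mem _
  · rw [if_neg h1, Submodule.mem_bot] at hx
    rw [hx, zero_mul]
    exact Submodule.zero_mem _

theorem V_diag (F : Submodule k T) (i : Fin 3) (c : k) : algebraMap k T c ∈ V F i i := by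
  unfold V
  rw [if_pos le_rfl, Nat.sub_self, pow_zero]
  exact Submodule.algebraMap_mem c

theorem V_fg (F : Submodule k T) (hF : F.FG) (i j : Fin 3) : (V F i j).FG := by
  unfold V
  split_ifs
  · exact hF.pow _
  · exact Submodule.fg_bot

/-- The triangular algebra. -/
def La (F : Submodule k T) : Subalgebra k (Matrix (Fin 3) (Fin 3) T) where
  carrier := {M | ∀ i j, M i j ∈ V F i j}
  mul_mem' := by
    intro M N hM hN i l
    rw [Matrix.mul_apply]
    exact Submodule.sum_mem _ fun j _ => V_mul F i j l (hM i j) (hN j l)
  add_mem' := by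
    intro M N hM hN i j
    exact Submodule.add_mem _ (hM i j) (hN i j)
  algebraMap_mem' := by
    intro c i j
    rw [Matrix.algebraMap_matrix_apply]
    split_ifs with h
    · subst h
      exact V_diag F i c
    · exact Submodule.zero_mem _

theorem single_mem (F : Submodule k T) (i j : Fin 3) (t : T) (ht : t ∈ V F i j) :
    Matrix.single i j t ∈ La F := by
  intro a b
  rw [Matrix.single_apply]
  split_ifs with h
  · obtain ⟨rfl, rfl⟩ := h
    exact ht
  · exact Submodule.zero_mem _

theorem La_fin (F : Submodule k T) (hF : F.FG) : Module.Finite k (La F) := by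
  have : ∀ i j, Module.Finite k (V F i j) := fun i j =>
    Module.Finite.iff_fg.2 (V_fg F hF i j)
  let f : La F →ₗ[k] (∀ i j : Fin 3, V F i j) :=
    { toFun := fun M i j => ⟨M.1 i j, M.2 i j⟩
      map_add' := fun _ _ => rfl
      map_smul' := fun _ _ => rfl }
  refine Module.Finite.of_injective f ?_
  intro M N h
  apply Subtype.ext
  ext i j
  exact congrArg Subtype.val (congrFun (congrFun h i) j)

end LAMx

theorem p_LAM : S_LAM := by
  intro k T _ _ _ S
  refine ⟨LAMx.La (Submodule.span k (S : Set T)), LAMx.La_fin _ ⟨S, rfl⟩, fun i => ?_,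
    fun t ht => ⟨?_, ?_⟩⟩
  · apply LAMx.single_mem
    simpa using LAMx.V_diag (Submodule.span k (S : Set T)) i 1
  · apply LAMx.single_mem
    have : LAMx.V (Submodule.span k (S : Set T)) 0 1 = Submodule.span k (S : Set T) := by
      simp [LAMx.V]
    rw [this]
    exact Submodule.subset_span ht
  · apply LAMx.single_mem
    have : LAMx.V (Submodule.span k (S : Set T)) 1 2 = Submodule.span k (S : Set T) := by
      unfold LAMx.V
      rw [if_pos (by decide)]
      exact pow_one _
    rw [this]
    exact Submodule.subset_span ht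

end Pool.Agent.P.MP_3d2265_gt.TC
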