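import Pool.Agent.P.MP_3d2265_gt.TC.Iface

/-! Step LLAA. -/

set_option autoImplicit false

namespace Pool.Agent.P.MP_3d2265_gt.TC

open CategoryTheory Limits Function

theorem p_LLAA : S_LLAA := by
  intro A _ K M M' _ _ _ _ i H
  constructor
  · obtain ⟨I, _, _, ι, inj, hI⟩ := exists_inj A M
    obtain ⟨h, a, -⟩ := H I PUnit (0 : I →ₗ[A] PUnit) (SB.of_exact (ι := LinearMap.id)
      acyc_inj.bb injective_id (fun x => by simp) fun _ => ⟨0, rfl⟩) ι 0 (by ext)
    exact Injective.of_comp (f := h) (by rwa [← a] at inj)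
  · intro E E' _ _ _ _ π hπ g
    obtain ⟨h, a, b⟩ := H E E' π hπ 0 (g ∘ₗ (LinearMap.range i).mkQ) (LinearMap.ext fun m => by
      simp [(Submodule.Quotient.mk_eq_zero _).2 (LinearMap.mem_range_self i m)])
    refine ⟨(LinearMap.range i).liftQ h ?_, Submodule.linearMap_qext _ ?_⟩
    · rintro _ ⟨m, rfl⟩; exact LinearMap.congr_fun a m
    · rw [← b]; rfl

end Pool.Agent.P.MP_3d2265_gt.TC
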