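import Pool.Agent.P.MP_3d2265_gt.TC.Iface

/-! Step LLSEQ. -/

set_option autoImplicit false

namespace Pool.Agent.P.MP_3d2265_gt.TC

open CategoryTheory Limits Function

theorem p_LLSEQ : S_LLSEQ := by
  intro A _ K F s hs H E E' _ _ _ _ π hπ f g e
  let X : ℕ → Type := fun n => {h : F.obj n →ₗ[A] E // π ∘ₗ h = g ∘ₗ (s.ι.app n).hom}
  have st : ∀ n (x : X n), ∃ y : X (n + 1), y.1 ∘ₗ (F.map (homOfLE n.le_succ)).hom = x.1 :=
    fun n x => by
      obtain ⟨h, a, b⟩ := H n E E' π hπ x.1 (g ∘ₗ (s.ι.app (n + 1)).hom) (by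
        rw [x.2]; exact LinearMap.ext fun y => congrArg g (colim_w s (homOfLE n.le_succ) y).symm)
      exact ⟨⟨h, b⟩, a⟩
  choose nx hnx using st
  let x : ∀ n, X n := fun n => Nat.rec ⟨f, e⟩ nx n
  let c : Cocone F := Cocone.mk (ModuleCat.of A E)
    (NatTrans.ofSequence (fun n => ModuleCat.ofHom (x n).1) fun n => by
      ext y; exact LinearMap.congr_fun (hnx n (x n)) y)
  have fac : ∀ n y, (hs.desc c).hom ((s.ι.app n).hom y) = (x n).1 y := fun n y =>
    congrArg (fun t => t.hom y) (hs.fac c n)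
  refine ⟨(hs.desc c).hom, LinearMap.ext (fac 0), LinearMap.ext fun y => ?_⟩
  obtain ⟨n, y, rfl⟩ := colim_rep hs y
  exact (congrArg π (fac n y)).trans (LinearMap.congr_fun (x n).2 y)

end Pool.Agent.P.MP_3d2265_gt.TC
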