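import Pool.Agent.P.MP_3d2265_gt.TC.Iface

/-! Step LOCZ. -/

set_option autoImplicit false

namespace Pool.Agent.P.MP_3d2265_gt.TC

open CategoryTheory Limits Function

open OreLocalization in
theorem p_LOCZ : S_LOCZ := by
  intro k R _ _ _ χ h
  let S : Submonoid R :=
    { carrier := {r | χ r ≠ 0}
      mul_mem' := fun {a b} ha hb => by
        show χ (a * b) ≠ 0
        rw [map_mul]; exact mul_ne_zero ha hb
      one_mem' := by
        show χ 1 ≠ 0
        rw [map_one]; exact one_ne_zero }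
  obtain ⟨I⟩ : Nonempty (OreSet S) := nonempty_oreSet_iff.2 ⟨fun r₁ r₂ s e =>
    ⟨1, by rw [sub_eq_zero.1 ((h (r₁ - r₂) s s.2).1 (by rw [sub_mul, e, sub_self]))]⟩, fun r s => by
      obtain ⟨r', s', a, b⟩ := (h r s s.2).2
      exact ⟨r', ⟨s', a⟩, b⟩⟩
  let fS : S →* kˣ :=
    { toFun := fun s => Units.mk0 (χ s) s.2
      map_one' := Units.ext (map_one χ)
      map_mul' := fun a b => Units.ext (map_mul χ _ _) }
  have hf : ∀ s : S, χ.toRingHom s = fS s := fun _ => rfl
  let χ' : OreLocalization S R →ₐ[k] k :=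
    { universalHom χ.toRingHom fS hf with
      commutes' := fun c => (universalHom_commutes χ.toRingHom fS hf).trans (χ.commutes c) }
  refine ⟨OreLocalization S R, inferInstance, inferInstance, ⟨χ', fun t ht => ?_⟩, numeratorRingHom,
    fun r => universalHom_commutes χ.toRingHom fS hf, fun r hr => ?_⟩
  · induction t with | _ r s
    have hr : χ r ≠ 0 := fun e => ht (by
      show universalHom χ.toRingHom fS hf (r /ₒ s) = 0
      rw [universalHom_apply]
      exact mul_eq_zero_of_right _ e)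
    exact ⟨⟨r /ₒ s, (s : R) /ₒ ⟨r, hr⟩, OreLocalization.mul_inv ⟨r, hr⟩ s,
      OreLocalization.mul_inv s ⟨r, hr⟩⟩, rfl⟩
  · obtain ⟨u, v, a, b⟩ := oreDiv_eq_iff.1
      ((hr : r /ₒ (1 : S) = 0).trans OreLocalization.zero_def)
    rw [smul_zero, smul_eq_mul] at a
    simp only [OneMemClass.coe_one, mul_one] at b
    exact ⟨u, u.2, by rw [b, ← a]⟩

end Pool.Agent.P.MP_3d2265_gt.TC
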