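import Pool.Agent.P.MP_3d2265_gt.TC.Iface

/-! Step MAIN. -/

set_option autoImplicit false

namespace Pool.Agent.P.MP_3d2265_gt.TC

open CategoryTheory Limits Function

theorem p_MAIN (hALG : S_ALG) (hBAER : S_BAER) (hENV : S_ENV) (hCHCP : S_CHCP) (hAALIM : S_AALIM) (hCOLIM : S_COLIM) (hORTH : S_ORTH) (hREP : S_REP) (hPURE : S_PURE) : S_MAIN := by
  intro k _
  obtain ⟨T, _, _, L, A, _, _, D, ρ, hf, hs, hR⟩ := hALG k
  obtain ⟨hn, hb⟩ := hBAER k A hf hs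
  have hE := hENV A D
  obtain ⟨r1, r2, r3⟩ := hREP k T A L D ρ hR
  refine ⟨A, inferInstance, inferInstance, hf, hs, hb.injective, _, _, hCHCP A D.ctx hE,
    hAALIM A D.ctx hE hn hb, ?_, hPURE A D.ctx D.q (Col ρ) hE (by simp [Dat.ctx]) r2 r3
      fun X _ _ a f => hORTH k T A _ L ρ D.ctx X hn r1 a f⟩
  rintro _ ⟨J, _, _, F, c, ⟨hc⟩, h, rfl⟩ cc hcc
  exact hCOLIM A _ cc J F c hc fun j => ⟨j, 𝟙 j, by rw [F.map_id]; exact (h j cc hcc).sol⟩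

end Pool.Agent.P.MP_3d2265_gt.TC
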