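import Pool.Agent.P.MP_3d2265_gt.TC.Iface

/-! Step MIN. -/

set_option autoImplicit false

namespace Pool.Agent.P.MP_3d2265_gt.TC

open CategoryTheory Limits Function

namespace MINx

theorem ex_min {G : Type} [Group G] (P : Submonoid G) (hP : Cone P) (S : Finset G)
    (hS : S.Nonempty) : ∃ g ∈ S, ∀ h ∈ S, g⁻¹ * h ∈ P := by
  classical
  induction hS using Finset.Nonempty.cons_induction with
  | singleton a =>
    refine ⟨a, Finset.mem_singleton_self a, fun h hh => ?_⟩
    rw [Finset.mem_singleton.1 hh, inv_mul_cancel]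
    exact P.one_mem
  | cons a S ha _ ih =>
    obtain ⟨g, hg, hmin⟩ := ih
    rcases hP.1 (g⁻¹ * a) with h | h
    · refine ⟨g, Finset.mem_cons_of_mem hg, fun x hx => ?_⟩
      rcases Finset.mem_cons.1 hx with rfl | hx
      · exact h
      · exact hmin x hx
    · refine ⟨a, Finset.mem_cons_self a S, fun x hx => ?_⟩
      rcases Finset.mem_cons.1 hx with rfl | hx
      · rw [inv_mul_cancel]; exact P.one_mem
      · have := P.mul_mem h (hmin x hx)
        have e : (g⁻¹ * a)⁻¹ * (g⁻¹ * x) = a⁻¹ * x := by group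
        rwa [e] at this

end MINx

theorem p_MIN : S_MIN := by
  intro k G _ _ P hP
  refine ⟨fun v hv => MINx.ex_min P hP _ ?_, fun v s g hs hg => ?_⟩
  · rw [Finsupp.support_nonempty_iff]
    exact fun h => hv (MonoidAlgebra.coeff_eq_zero.1 h)
  · rw [MonoidAlgebra.coeff_mul_apply_left, Finsupp.sum, Finset.sum_eq_single g]
    · rw [inv_mul_cancel]
    · intro h hh hne
      by_cases h0 : s.coeff (h⁻¹ * g) = 0
      · rw [h0, mul_zero]
      · exfalso
        have h1 : h⁻¹ * g ∈ P := hs _ (Finsupp.mem_support_iff.2 h0)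
        have h2 : (h⁻¹ * g)⁻¹ ∈ P := by
          have e : (h⁻¹ * g)⁻¹ = g⁻¹ * h := by group
          rw [e]; exact hg h hh
        have := hP.2 _ h1 h2
        exact hne (inv_mul_eq_one.1 this)
    · intro h
      rw [Finsupp.notMem_support_iff.1 h, zero_mul]

end Pool.Agent.P.MP_3d2265_gt.TC
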