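import Pool.Agent.P.MP_3d2265_gt.TC.Iface

/-! Step NAK. -/

set_option autoImplicit false

namespace Pool.Agent.P.MP_3d2265_gt.TC

open CategoryTheory Limits Function

namespace NAKx

open Matrix

theorem gi {k m l : Type} [Field k] [Fintype m] [Fintype l] (A : Matrix m l k) :
    ∃ h : Matrix l m k, ∀ u, A *ᵥ h *ᵥ A *ᵥ u = A *ᵥ u := by
  classical
  obtain ⟨s, hs⟩ := A.mulVecLin.rangeRestrict.exists_rightInverse_of_surjective
    A.mulVecLin.range_rangeRestrict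
  obtain ⟨h, hh⟩ := s.exists_extend
  refine ⟨LinearMap.toMatrix' h, fun u => ?_⟩
  have a := LinearMap.congr_fun hh ⟨A *ᵥ u, u, rfl⟩
  have b := congrArg Subtype.val (LinearMap.congr_fun hs ⟨A *ᵥ u, u, rfl⟩)
  rw [LinearMap.toMatrix'_mulVec]
  exact (congrArg (A *ᵥ ·) a).trans b

theorem hom {k l m n : Type} [Field k] [Fintype l] [Fintype m] [Fintype n] [DecidableEq m]
    (A : Matrix m l k) (B : Matrix n m k) (ex : ∀ v, B *ᵥ v = 0 → ∃ u, A *ᵥ u = v) :
    ∃ (h : Matrix l m k) (g : Matrix m n k), g * B + A * h = 1 := by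
  obtain ⟨h, hh⟩ := gi A
  obtain ⟨g, hg⟩ := gi B
  refine ⟨h, (1 - A * h) * g, mulVec_injective (funext fun v => ?_)⟩
  obtain ⟨u, hu⟩ := ex (v - g *ᵥ B *ᵥ v) (by rw [mulVec_sub, hg, sub_self])
  have a := hh u
  rw [hu, mulVec_sub, mulVec_sub] at a
  simp only [add_mulVec, ← mulVec_mulVec, sub_mulVec, one_mulVec]
  linear_combination a

end NAKx

open Matrix in
theorem p_NAK (hINV : S_INV) : S_NAK := by
  intro k T l m n _ _ _ _ _ _ L D₀ D₁ h0 ex v hv
  classical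
  obtain ⟨h, g, e⟩ := NAKx.hom _ _ ex
  have r : ∀ {a b : Type} (M : Matrix a b k), (M.map (algebraMap k T)).map L.χ = M :=
    fun M => by ext i j; simp
  have mm : ∀ {a b c : Type} [Fintype b] (M : Matrix a b T) (N : Matrix b c T),
      (M * N).map L.χ = M.map L.χ * N.map L.χ := fun M N => Matrix.map_mul (f := L.χ.toRingHom)
  have ma : ∀ M N : Matrix m m T, (M + N).map L.χ = M.map L.χ + N.map L.χ :=
    fun M N => Matrix.map_add _ (map_add L.χ) M N
  have z : D₁.map L.χ * D₀.map L.χ = 0 := by rw [← mm, h0]; ext; simp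
  set E := D₀.map L.χ * h with hE
  set G := g * D₁.map L.χ with hG
  have i : E * G = 0 := by
    have a : G * E = 0 := by
      rw [hG, hE, Matrix.mul_assoc, ← Matrix.mul_assoc _ _ h, z, Matrix.zero_mul, Matrix.mul_zero]
    rw [eq_sub_of_add_eq e] at a ⊢
    rw [← a, mul_sub, sub_mul, mul_one, one_mul]
  obtain ⟨Θ, hΘ⟩ := hINV k T m L (D₀ * h.map (algebraMap k T) + G.map (algebraMap k T))
    (by rw [ma, mm, r, r, add_comm, e])
  obtain ⟨Ψ, hΨ⟩ := hINV k T m L (g.map (algebraMap k T) * D₁ + E.map (algebraMap k T))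
    (by rw [ma, mm, r, r, e])
  obtain ⟨w, rfl⟩ : ∃ w, Θ.val *ᵥ w = v :=
    ⟨Θ⁻¹.val *ᵥ v, by rw [mulVec_mulVec, Θ.mul_inv, one_mulVec]⟩
  rw [hΘ, add_mulVec, ← mulVec_mulVec] at hv ⊢
  rw [mulVec_add, mulVec_mulVec, h0, zero_mulVec, zero_add] at hv
  have a : Ψ.val *ᵥ G.map (algebraMap k T) *ᵥ w = 0 := by
    rw [hΨ, add_mulVec, ← mulVec_mulVec, hv, mulVec_zero, zero_add, mulVec_mulVec,
      ← Matrix.map_mul, i]
    simp
  have b := congrArg (Ψ⁻¹.val *ᵥ ·) a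
  simp only [mulVec_zero] at b
  rw [mulVec_mulVec, Ψ.inv_mul, one_mulVec] at b
  exact ⟨_, by rw [b, add_zero]⟩

end Pool.Agent.P.MP_3d2265_gt.TC
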