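import Pool.Agent.P.MP_3d2265_gt.TC.Iface

/-! Step OMEGA. -/

set_option autoImplicit false

namespace Pool.Agent.P.MP_3d2265_gt.TC

open CategoryTheory Limits Function

theorem p_OMEGA (hCOLIM : S_COLIM) (hLLSEQ : S_LLSEQ) : S_OMEGA := by
  intro A _ K C H M _ _
  have st : ∀ X : ModuleCat.{0} A, ∃ (Y : ModuleCat.{0} A) (i : X ⟶ Y),
      LL K i.hom ∧ ∀ c ∈ C, Sol K.ε c i.hom := fun X => by
    obtain ⟨M', _, _, i, a⟩ := H X
    exact ⟨ModuleCat.of A M', ModuleCat.ofHom i, a⟩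
  choose Φ i hi hi' using st
  let X : ℕ → ModuleCat.{0} A := fun n => Nat.rec (ModuleCat.of A M) (fun _ => Φ) n
  let F : ℕ ⥤ ModuleCat.{0} A := Functor.ofSequence (X := X) fun n => i (X n)
  have e : ∀ n, F.map (homOfLE n.le_succ) = i (X n) := fun n =>
    Functor.ofSequence_map_homOfLE_succ (X := X) (fun n => i (X n)) n
  exact ⟨(colimit F : ModuleCat.{0} A), _, _, (colimit.ι F 0).hom,
    hLLSEQ A K F _ (colimit.isColimit F) fun n => e n ▸ hi _,
    fun c hc => hCOLIM A _ c ℕ F _ (colimit.isColimit F) fun n =>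
      ⟨n + 1, homOfLE n.le_succ, e n ▸ hi' _ c hc⟩⟩

end Pool.Agent.P.MP_3d2265_gt.TC
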