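import Pool.Agent.P.MP_3d2265_gt.TC.Iface

/-! Step ORE. -/

set_option autoImplicit false

namespace Pool.Agent.P.MP_3d2265_gt.TC

open CategoryTheory Limits Function

theorem p_ORE (hMIN : S_MIN) : S_ORE := by
  intro k G _ _ P hP hF r s hs
  obtain ⟨m1, m2⟩ := hMIN k G P hP
  have key : ∀ v : MonoidAlgebra k G, v ≠ 0 → ∃ g, (∀ h ∈ v.coeff.support, g⁻¹ * h ∈ P) ∧
      v.coeff g ≠ 0 ∧ (v * s.1).coeff g ≠ 0 := fun v hv => by
    obtain ⟨g, hg, hg'⟩ := m1 v hv
    have := Finsupp.mem_support_iff.1 hg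
    exact ⟨g, hg', this, by rw [m2 v s.1 g s.2 hg']; exact mul_ne_zero this hs⟩
  have can : ∀ v : MonoidAlgebra k G, v * s.1 = 0 → v = 0 := fun v e => by
    by_contra hv
    obtain ⟨g, -, -, h⟩ := key v hv
    exact h (by rw [e]; rfl)
  refine ⟨fun e => Subtype.ext (can _ (congrArg Subtype.val e)), ?_⟩
  obtain ⟨u, v, huv, e⟩ := hF r.1 s.1
  have hu : u ≠ 0 := fun h => huv.elim (fun a => a h) fun a => a (can v (by rw [← e, h, zero_mul]))
  obtain ⟨g, hg, hg', -⟩ := key u hu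
  have co : ∀ h, (MonoidAlgebra.single g⁻¹ (1 : k) * u).coeff h = u.coeff (g * h) := fun h => by
    rw [MonoidAlgebra.coeff_single_mul_apply, inv_inv, one_mul]
  have hs' : MonoidAlgebra.single g⁻¹ (1 : k) * u ∈ Sup k P := fun h hh => by
    have := hg (g * h) (by rw [Finsupp.mem_support_iff, ← co]; exact Finsupp.mem_support_iff.1 hh)
    rwa [inv_mul_cancel_left] at this
  have e' : MonoidAlgebra.single g⁻¹ (1 : k) * u * r.1 =
      MonoidAlgebra.single g⁻¹ (1 : k) * v * s.1 := by rw [mul_assoc, e, mul_assoc]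
  have hv' : MonoidAlgebra.single g⁻¹ (1 : k) * v ∈ Sup k P := fun h hh => by
    obtain ⟨g₁, a, -, c⟩ := key (MonoidAlgebra.single g⁻¹ (1 : k) * v) fun z => by
      rw [z] at hh; simp at hh
    rw [← e'] at c
    have := P.mul_mem (((Sup k P).mul_mem hs' r.2) g₁ (Finsupp.mem_support_iff.2 c)) (a h hh)
    rwa [mul_inv_cancel_left] at this
  exact ⟨⟨_, hv'⟩, ⟨_, hs'⟩, by rw [co, mul_one]; exact hg', Subtype.ext e'⟩

end Pool.Agent.P.MP_3d2265_gt.TC
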