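import Pool.Agent.P.MP_3d2265_gt.TC.Iface

/-! Step ORTH. -/

set_option autoImplicit false

namespace Pool.Agent.P.MP_3d2265_gt.TC

open CategoryTheory Limits Function

namespace ORTHx

variable {A : Type} [Ring A] {M N Y : Type} [AddCommGroup M] [Module A M] [AddCommGroup N]
  [Module A N] [AddCommGroup Y] [Module A Y]

theorem desc (p : M →ₗ[A] N) (hp : Surjective p) (f : M →ₗ[A] Y) (h : ∀ m, p m = 0 → f m = 0) :
    ∃ g : N →ₗ[A] Y, ∀ m, g (p m) = f m := by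
  refine ⟨(LinearMap.ker p).liftQ f (fun m hm => h m hm) ∘ₗ
    (p.quotKerEquivOfSurjective hp).symm.toLinearMap, fun m => ?_⟩
  have : (p.quotKerEquivOfSurjective hp).symm (p m) = Submodule.Quotient.mk m := by
    rw [LinearEquiv.symm_apply_eq]
    rfl
  rw [LinearMap.comp_apply, LinearEquiv.coe_coe, this]
  rfl

end ORTHx

open ORTHx in
theorem p_ORTH (hORTH0 : S_ORTH0) (hEXTEND : S_EXTEND) : S_ORTH := by
  intro k T A n _ _ _ _ _ _ L ρ K X _ _ hA hB hX hF E E' _ _ _ _ ι π hι ex hπ g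
  obtain ⟨m₀, π₀, h₀⟩ := Module.Finite.exists_fin' A X
  obtain ⟨m₁, π₁, h₁⟩ := Module.Finite.exists_fin' A (LinearMap.ker π₀)
  obtain ⟨m₂, π₂, h₂⟩ := Module.Finite.exists_fin' A (LinearMap.ker π₁)
  have hz : ∀ {Y : Type} [AddCommGroup Y] [Module A Y] (φ : (Fin m₁ → A) →ₗ[A] Y),
      φ ∘ₗ ((LinearMap.ker π₁).subtype ∘ₗ π₂) = 0 → ∀ m, π₁ m = 0 → φ m = 0 := by
    intro Y _ _ φ h m hm
    obtain ⟨u, hu⟩ := h₂ ⟨m, hm⟩
    have := LinearMap.congr_fun h u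
    rwa [LinearMap.comp_apply, LinearMap.comp_apply, hu] at this
  have hd : ∀ u, π₁ (((LinearMap.ker π₁).subtype ∘ₗ π₂) u) = 0 := fun u => (π₂ u).2
  have key := hORTH0 k T A n L ρ m₀ m₁ m₂ ((LinearMap.ker π₀).subtype ∘ₗ π₁)
    ((LinearMap.ker π₁).subtype ∘ₗ π₂)
    (LinearMap.ext fun u => by
      rw [LinearMap.comp_apply, LinearMap.comp_apply, hd, map_zero, LinearMap.zero_apply])
    (fun φ h => by
      obtain ⟨μ, hμ⟩ := desc π₁ h₁ φ (hz φ h)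
      obtain ⟨ν, hν⟩ := hEXTEND A K _ _ (LinearMap.ker π₀) μ
        (hX.equiv (π₀.quotKerEquivOfSurjective h₀)) hB
      exact ⟨ν, LinearMap.ext fun u => (LinearMap.congr_fun hν (π₁ u)).trans (hμ u)⟩)
  obtain ⟨gt, hg⟩ := Module.projective_lifting_property π (g ∘ₗ π₀) hπ
  have hr : ∀ u, (gt ∘ₗ ((LinearMap.ker π₀).subtype ∘ₗ π₁)) u ∈ LinearMap.range ι := fun u => by
    refine (ex _).1 ((LinearMap.congr_fun hg _).trans ?_)
    exact (congrArg g (π₁ u).2).trans (map_zero g)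
  obtain ⟨φ, hφ⟩ : ∃ φ : (Fin m₁ → A) →ₗ[A] Col ρ, ∀ u, ι (φ u) = gt (π₁ u) :=
    ⟨(LinearEquiv.ofInjective ι hι).symm.toLinearMap ∘ₗ LinearMap.codRestrict _ _ hr, fun u =>
      congrArg Subtype.val ((LinearEquiv.ofInjective ι hι).apply_symm_apply ⟨_, hr u⟩)⟩
  obtain ⟨ψ, hψ⟩ := key φ (LinearMap.ext fun u => hι (by
    rw [LinearMap.comp_apply, hφ, hd, LinearMap.zero_apply, map_zero, ZeroMemClass.coe_zero,
      map_zero]))
  obtain ⟨h, hh⟩ := desc π₀ h₀ (gt - ι ∘ₗ ψ) fun m hm => by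
    obtain ⟨u, hu⟩ := h₁ ⟨m, hm⟩
    have e : ψ m = φ u := by
      rw [← hψ, LinearMap.comp_apply, LinearMap.comp_apply, hu]
      rfl
    rw [LinearMap.sub_apply, LinearMap.comp_apply, e, hφ, hu, sub_self]
  refine ⟨h, LinearMap.ext fun x => ?_⟩
  obtain ⟨m, rfl⟩ := h₀ x
  rw [LinearMap.comp_apply, hh, LinearMap.sub_apply, map_sub, LinearMap.comp_apply,
    ex.apply_apply_eq_zero, sub_zero]
  exact LinearMap.congr_fun hg m

end Pool.Agent.P.MP_3d2265_gt.TC
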