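import Pool.Agent.P.MP_3d2265_gt.TC.Iface

/-! Step ORTH0. -/

set_option autoImplicit false

namespace Pool.Agent.P.MP_3d2265_gt.TC

open CategoryTheory Limits Function

namespace ORTH0x

variable {A T n : Type} [Ring A] [Ring T] [Fintype n] [DecidableEq n] (ρ : A →+* Matrix n n T)
  {a b c : ℕ}

/-- The block matrix of a map of free modules. -/
def big (d : (Fin a → A) →ₗ[A] (Fin b → A)) : Matrix (Fin a × n) (Fin b × n) T :=
  fun p q => ρ (d (Pi.single p.1 1) q.1) p.2 q.2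

/-- The vector of a map from a free module. -/
def vc (φ : (Fin a → A) →ₗ[A] Col ρ) : Fin a × n → T :=
  fun p => Col.vec ρ (φ (Pi.single p.1 1)) p.2

theorem expand {M : Type} [AddCommGroup M] [Module A M] (φ : (Fin a → A) →ₗ[A] M)
    (x : Fin a → A) : φ x = ∑ s, x s • φ (Pi.single s 1) := by
  conv_lhs => rw [pi_eq_sum_univ' x, map_sum]
  simp only [map_smul]

theorem vc_comp (d : (Fin a → A) →ₗ[A] (Fin b → A)) (φ : (Fin b → A) →ₗ[A] Col ρ) :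
    vc ρ (φ ∘ₗ d) = (big ρ d).mulVec (vc ρ φ) := by
  funext p
  simp only [vc, big, LinearMap.comp_apply, Matrix.mulVec, dotProduct, Fintype.sum_prod_type]
  rw [expand φ, map_sum, Finset.sum_apply]
  rfl

theorem vc_inj {φ ψ : (Fin a → A) →ₗ[A] Col ρ} (h : vc ρ φ = vc ρ ψ) : φ = ψ :=
  LinearMap.ext fun x => by
    rw [expand φ, expand ψ]
    exact Finset.sum_congr rfl fun s _ => congrArg (x s • ·)
      ((Col.vec ρ).injective (funext fun j => congrFun h (s, j)))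

theorem vc_surj (v : Fin a × n → T) : ∃ φ : (Fin a → A) →ₗ[A] Col ρ, vc ρ φ = v :=
  ⟨Fintype.linearCombination A fun s => (Col.vec ρ).symm fun j => v (s, j), funext fun p => by
    simp [vc]⟩

theorem vc_zero : vc ρ (0 : (Fin a → A) →ₗ[A] Col ρ) = 0 := rfl

theorem big_mul (d₁ : (Fin b → A) →ₗ[A] (Fin c → A)) (d₂ : (Fin a → A) →ₗ[A] (Fin b → A))
    (h : d₁ ∘ₗ d₂ = 0) : big ρ d₂ * big ρ d₁ = 0 := by
  refine Matrix.ext_of_mulVec_single fun q => ?_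
  obtain ⟨φ, hφ⟩ := vc_surj ρ (Pi.single q (1 : T))
  rw [← Matrix.mulVec_mulVec, ← hφ, ← vc_comp, ← vc_comp, LinearMap.comp_assoc, h,
    LinearMap.comp_zero, vc_zero, Matrix.zero_mulVec]

end ORTH0x

open ORTH0x in
theorem p_ORTH0 (hNAK : S_NAK) : S_ORTH0 := by
  intro k T A n _ _ _ _ _ _ L ρ m₀ m₁ m₂ d₁ d₂ h H φ hφ
  obtain ⟨u, hu⟩ := hNAK k T _ _ _ L (big ρ d₁) (big ρ d₂) (big_mul ρ d₁ d₂ h) (fun v hv => by
    obtain ⟨φ', rfl⟩ := vc_surj (L.red ρ) v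
    obtain ⟨ψ, rfl⟩ := H φ' (vc_inj _ ((vc_comp _ d₂ φ').trans hv))
    exact ⟨vc _ ψ, (vc_comp _ d₁ ψ).symm⟩) (vc ρ φ) (by rw [← vc_comp, hφ, vc_zero])
  obtain ⟨ψ, rfl⟩ := vc_surj ρ u
  exact ⟨ψ, vc_inj ρ ((vc_comp ρ d₁ ψ).trans hu)⟩

end Pool.Agent.P.MP_3d2265_gt.TC
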