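import Pool.Agent.P.MP_3d2265_gt.TC.Iface

/-! Step PURE. -/

set_option autoImplicit false

namespace Pool.Agent.P.MP_3d2265_gt.TC

open CategoryTheory Limits Function

theorem p_PURE (hLLAA : S_LLAA) : S_PURE := by
  intro A _ K q N _ _ hE hq hε ⟨v, hv⟩ hX
  obtain ⟨B, _, _, i, li, hB⟩ := hE N
  obtain ⟨inj, aa⟩ := hLLAA A K N B i li
  refine ⟨ModuleCat.of A (B ⧸ LinearMap.range i), aa, ?_⟩
  rintro ⟨J, _, _, F, ⟨pt, ι⟩, ⟨hc⟩, h, e⟩
  dsimp only at e
  subst e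
  obtain ⟨z', u, -, hu⟩ := hB _ hq (i v) 0 (by rw [← map_smul, hε, map_zero]) (by simp)
  dsimp only at hu
  rw [zero_smul, zero_add] at hu
  obtain ⟨j, x, hx⟩ := colim_rep hc ((LinearMap.range i).mkQ u)
  obtain ⟨j', f, hf⟩ := colim_eq hc (y := K.ε • x) (y' := 0) (by
    rw [map_smul, hx, map_zero, ← map_smul, ← hu, ← map_smul]
    exact (Submodule.Quotient.mk_eq_zero _).2 (LinearMap.mem_range_self _ _))
  obtain ⟨s, hs⟩ := hX (F.obj j') (h j').1 (h j').2 B _ i (LinearMap.range i).mkQ inj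
    (LinearMap.exact_map_mkQ_range i) (Submodule.mkQ_surjective _) (ι.app j').hom
  have e1 : (LinearMap.range i).mkQ (u - s ((F.map f).hom x)) = 0 := by
    rw [map_sub, ← hx, sub_eq_zero]
    exact ((LinearMap.congr_fun hs _).trans (colim_w ⟨_, ι⟩ f x)).symm
  obtain ⟨n, hn⟩ := (Submodule.Quotient.mk_eq_zero _).1 e1
  refine hv (inj ?_)
  rw [map_smul, hu, map_zero, ← sub_add_cancel u (s ((F.map f).hom x)), ← hn, smul_add,
    ← map_smul, hε, map_zero, zero_add, ← map_smul, ← map_smul, hf, map_zero, map_zero]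

end Pool.Agent.P.MP_3d2265_gt.TC
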