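import Pool.Agent.P.MP_3d2265_gt.TC.Iface

/-! Step PUSH. -/

set_option autoImplicit false

namespace Pool.Agent.P.MP_3d2265_gt.TC

open CategoryTheory Limits Function

theorem p_PUSH : S_PUSH := by
  intro A _ K N P _ _ _ _ θ hP H M _ _
  classical
  let S := N →ₗ[A] M
  let R : Submodule A (M × (S →₀ P)) :=
    ⨆ μ : S, LinearMap.range (LinearMap.prod μ (-(Finsupp.lsingle μ ∘ₗ θ)))
  have rel : ∀ μ : S, (R.mkQ ∘ₗ LinearMap.inr A _ _ ∘ₗ Finsupp.lsingle μ) ∘ₗ θ =
      (R.mkQ ∘ₗ LinearMap.inl A _ _) ∘ₗ μ := fun μ => LinearMap.ext fun n => by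
    refine ((Submodule.Quotient.eq R).2 ?_).symm
    refine Submodule.mem_iSup_of_mem μ ⟨n, ?_⟩
    simp
  refine ⟨_, _, _, R.mkQ ∘ₗ LinearMap.inl A _ _, fun E E' _ _ _ _ π hπ f g e => ?_,
    fun μ => ⟨_, rel μ⟩⟩
  have st : ∀ μ : S, ∃ h : P →ₗ[A] E, h ∘ₗ θ = f ∘ₗ μ ∧
      π ∘ₗ h = g ∘ₗ R.mkQ ∘ₗ LinearMap.inr A _ _ ∘ₗ Finsupp.lsingle μ := fun μ => by
    obtain ⟨l, hl⟩ := Module.projective_lifting_property π
      (g ∘ₗ R.mkQ ∘ₗ LinearMap.inr A _ _ ∘ₗ Finsupp.lsingle μ) hπ.1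
    obtain ⟨ψ, hψ⟩ := H _ hπ.2 ((f ∘ₗ μ - l ∘ₗ θ).codRestrict (LinearMap.ker π) fun n => by
      have a := LinearMap.congr_fun e (μ n)
      have b := LinearMap.congr_fun hl (θ n)
      have c := congrArg g (LinearMap.congr_fun (rel μ) n)
      simp only [LinearMap.comp_apply] at a b c
      simp only [LinearMap.mem_ker, LinearMap.sub_apply, LinearMap.comp_apply, map_sub, a, b, c,
        sub_self])
    refine ⟨l + (LinearMap.ker π).subtype ∘ₗ ψ, LinearMap.ext fun n => ?_, LinearMap.ext fun p => ?_⟩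
    · have := congrArg Subtype.val (LinearMap.congr_fun hψ n)
      simp only [LinearMap.comp_apply, LinearMap.codRestrict_apply, LinearMap.sub_apply] at this
      simp only [LinearMap.comp_apply, LinearMap.add_apply, Submodule.subtype_apply, this]
      abel
    · rw [← hl]
      simp only [LinearMap.comp_apply, LinearMap.add_apply, Submodule.subtype_apply, map_add,
        show π (ψ p) = 0 from (ψ p).2, add_zero]
  choose h h1 h2 using st
  refine ⟨R.liftQ (LinearMap.coprod f (Finsupp.lsum ℕ h)) (iSup_le fun μ => ?_), ?_, ?_⟩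
  · rintro _ ⟨n, rfl⟩
    have := LinearMap.congr_fun (h1 μ) n
    simp only [LinearMap.comp_apply] at this
    change f (μ n) + Finsupp.lsum ℕ h (-Finsupp.single μ (θ n)) = 0
    rw [map_neg, Finsupp.lsum_single, this, add_neg_cancel]
  · ext m; simp
  · refine R.linearMap_qext (LinearMap.prod_ext ?_ (Finsupp.lhom_ext' fun μ => ?_))
    · refine LinearMap.ext fun m => ?_
      simpa using LinearMap.congr_fun e m
    · refine LinearMap.ext fun p => ?_
      simpa using LinearMap.congr_fun (h2 μ) p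

end Pool.Agent.P.MP_3d2265_gt.TC
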