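import Pool.Agent.P.MP_3d2265_gt.TC.Iface

/-! Step REP. -/

set_option autoImplicit false

namespace Pool.Agent.P.MP_3d2265_gt.TC

open CategoryTheory Limits Function

namespace REPx

theorem red_single {k T A : Type} [Field k] [Ring T] [Algebra k T] [Ring A] (L : Loc k T)
    (ρ : A →+* Matrix (Fin 3) (Fin 3) T) {r : A} {i j : Fin 3} {t : T}
    (h : ρ r = Matrix.single i j t) : L.red ρ r = Matrix.single i j (L.χ t) := by
  ext i' j'
  change L.χ (ρ r i' j') = _
  rw [h]
  simp only [Matrix.single_apply]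
  split_ifs
  · rfl
  · exact map_zero _

theorem red_zero {k T A : Type} [Field k] [Ring T] [Algebra k T] [Ring A] (L : Loc k T)
    (ρ : A →+* Matrix (Fin 3) (Fin 3) T) {r : A} (h : ρ r = 0) : L.red ρ r = 0 := by
  ext i' j'
  change L.χ (ρ r i' j') = _
  rw [h]
  exact map_zero _

theorem act {A T : Type} [Ring A] [Ring T] (ρ : A →+* Matrix (Fin 3) (Fin 3) T) {r : A}
    {i j : Fin 3} {t : T} (h : ρ r = Matrix.single i j t) (v : Col ρ) :
    Col.vec ρ (r • v) = Pi.single i (t * Col.vec ρ v j) := by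
  rw [Col.vec_smul, h, Matrix.single_mulVec]
  ext i'
  by_cases e : i' = i
  · subst e
    simp
  · simp [e]

theorem act0 {A T : Type} [Ring A] [Ring T] (ρ : A →+* Matrix (Fin 3) (Fin 3) T) {r : A}
    (h : ρ r = 0) (v : Col ρ) : r • v = 0 :=
  (Col.vec ρ).injective (by rw [Col.vec_smul, h, Matrix.zero_mulVec, map_zero])

theorem onto {A T : Type} [Ring A] [Ring T] (ρ : A →+* Matrix (Fin 3) (Fin 3) T) {ε e a : A}
    {i j : Fin 3} (h0 : ρ ε = 0) (he : ρ e = Matrix.single i i 1)
    (ha : ρ a = Matrix.single i j 1) : Cond ε (0, e, a) (Col ρ) := fun z _ _ _ =>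
  ⟨(Col.vec ρ).symm (Pi.single j (Col.vec ρ z i)), 0, act0 ρ h0 _, (Col.vec ρ).injective (by
    rw [smul_zero, add_zero]
    change Col.vec ρ (e • z) = Col.vec ρ (a • _)
    rw [act ρ he, act ρ ha, AddEquiv.apply_symm_apply, Pi.single_eq_same])⟩

theorem into {A T : Type} [Ring A] [Ring T] (ρ : A →+* Matrix (Fin 3) (Fin 3) T) {ε e a : A}
    {i j : Fin 3} (h0 : ρ ε = 0) (he : ρ e = Matrix.single j j 1)
    (ha : ρ a = Matrix.single i j 1) : Cond ε (a, e, 0) (Col ρ) := fun z u _ hz => by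
  refine ⟨0, 0, smul_zero _, (Col.vec ρ).injective ?_⟩
  rw [smul_zero, smul_zero, add_zero, map_zero]
  change a • z = ε • u at hz
  rw [act0 ρ h0] at hz
  have h1 := congrFun (congrArg (Col.vec ρ) hz) i
  rw [act ρ ha, Pi.single_eq_same, map_zero, Pi.zero_apply] at h1
  change Col.vec ρ (e • z) = 0
  rw [act ρ he, h1, Pi.single_zero]

end REPx

open REPx in
theorem p_REP : S_REP := by
  intro k T A _ _ _ _ L D ρ R
  obtain ⟨t, t0, t1, t2⟩ := R.q
  have h0 := red_zero L ρ R.ε
  have e1 := red_single L ρ R.e₁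
  have e2 := red_single L ρ R.e₂
  have e3 := red_single L ρ R.e₃
  have ea := red_single L ρ R.a
  have eb := red_single L ρ R.b
  have eq := red_single L ρ t2
  rw [map_one] at e1 e2 e3 ea eb
  rw [t1, Matrix.single_zero] at eq
  refine ⟨fun c hc => ?_, act0 ρ R.ε, (Col.vec ρ).symm (Pi.single 2 1), fun h => t0 ?_⟩
  · simp only [Dat.ctx, Set.mem_insert_iff, Set.mem_singleton_iff] at hc
    rcases hc with rfl | rfl | rfl | rfl | rfl
    · exact onto _ h0 e1 ea
    · exact into _ h0 e2 ea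
    · exact onto _ h0 e2 eb
    · exact into _ h0 e3 eb
    · intro z _ _ _
      refine ⟨0, 0, smul_zero _, ?_⟩
      rw [smul_zero, smul_zero, add_zero]
      exact act0 _ eq z
  · have h1 := congrFun (congrArg (Col.vec ρ) h) 1
    rw [act ρ t2, Pi.single_eq_same, AddEquiv.apply_symm_apply, Pi.single_eq_same, mul_one,
      map_zero, Pi.zero_apply] at h1
    exact h1

end Pool.Agent.P.MP_3d2265_gt.TC
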