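import Pool.Agent.P.MP_3d2265_gt.TC.Iface

/-! Step RET. -/

set_option autoImplicit false

namespace Pool.Agent.P.MP_3d2265_gt.TC

open CategoryTheory Limits Function

namespace RETx

open Filter

variable {A : Type} [Ring A] {J : Type} [PartialOrder J] [IsDirectedOrder J]
  [Nonempty J] {F : J ⥤ ModuleCat.{0} A} {s : Cocone F}

omit [IsDirectedOrder J] [Nonempty J] in
theorem map_map {i j k : J} (f : i ⟶ j) (g : j ⟶ k) (l : i ⟶ k) (m : F.obj i) :
    (F.map g).hom ((F.map f).hom m) = (F.map l).hom m := by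
  rw [Subsingleton.elim l (f ≫ g), F.map_comp]
  rfl

/-- two representatives agree at all large stages -/
theorem agree (hs : IsColimit s) {i i' : J} {m : F.obj i} {m' : F.obj i'}
    (e : (s.ι.app i).hom m = (s.ι.app i').hom m') :
    ∀ᶠ j in atTop, ∀ (f : i ⟶ j) (f' : i' ⟶ j), (F.map f).hom m = (F.map f').hom m' := by
  obtain ⟨k, hk, hk'⟩ := exists_ge_ge i i'
  obtain ⟨l, g, hg⟩ := colim_eq hs (y := (F.map (homOfLE hk)).hom m)
    (y' := (F.map (homOfLE hk')).hom m') (by rw [colim_w, colim_w, e])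
  filter_upwards [eventually_ge_atTop l] with j hj f f'
  rw [← map_map (homOfLE hk ≫ g) (homOfLE hj) f, ← map_map (homOfLE hk' ≫ g) (homOfLE hj) f',
    ← map_map (homOfLE hk) g, ← map_map (homOfLE hk') g, hg]

theorem ex {X : Type} [AddCommGroup X] [Module A X] (π : X →ₗ[A] s.pt) (hs : IsColimit s)
    (h : ∀ j, F.obj j →ₗ[A] X) (hh : ∀ j, π ∘ₗ h j = (s.ι.app j).hom) (e : X) :
    ∃ g : J → LinearMap.ker π, ∀ (i : J) (m : F.obj i), (s.ι.app i).hom m = π e →
      ∀ᶠ j in atTop, ∀ f : i ⟶ j, (g j : X) = e - h j ((F.map f).hom m) := by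
  classical
  obtain ⟨i, m, hm⟩ := colim_rep hs (π e)
  refine ⟨fun j => if hij : i ≤ j then ⟨e - h j ((F.map (homOfLE hij)).hom m), ?_⟩ else 0,
    fun i' m' hm' => ?_⟩
  · rw [LinearMap.mem_ker, map_sub, ← LinearMap.comp_apply π (h j), hh, colim_w, hm, sub_self]
  · filter_upwards [eventually_ge_atTop i, agree hs (i' := i') (m' := m') (hm.trans hm'.symm)] with j hj H f
    rw [dif_pos hj, ← H (homOfLE hj) f]

end RETx

open Filter in
theorem p_RET : S_RET := by
  intro A _ J _ _ _ F s X _ _ π hs hh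
  choose h hh using hh
  choose g hg using RETx.ex π hs h hh
  refine ⟨⟨⟨fun e => (g e : Germ atTop _), fun e e' => ?_⟩, fun a e => ?_⟩, fun b => ?_⟩
  · obtain ⟨i, m, hm⟩ := colim_rep hs (π e)
    obtain ⟨i', m', hm'⟩ := colim_rep hs (π e')
    obtain ⟨k, hk, hk'⟩ := exists_ge_ge i i'
    have h1 := (colim_w s (homOfLE hk) m).trans hm
    have h2 := (colim_w s (homOfLE hk') m').trans hm'
    rw [← Germ.coe_add, Germ.coe_eq]
    filter_upwards [eventually_ge_atTop k, hg e k _ h1, hg e' k _ h2,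
      hg (e + e') k ((F.map (homOfLE hk)).hom m + (F.map (homOfLE hk')).hom m')
        (by rw [map_add, map_add, h1, h2])] with j hj a b c
    refine Subtype.ext ?_
    rw [Pi.add_apply, Submodule.coe_add, a (homOfLE hj), b (homOfLE hj), c (homOfLE hj), map_add,
      map_add]
    abel
  · obtain ⟨i, m, hm⟩ := colim_rep hs (π e)
    change Germ.ofFun (l := atTop) (g (a • e)) = a • Germ.ofFun (l := atTop) (g e)
    rw [← Germ.coe_smul, Germ.coe_eq]
    filter_upwards [eventually_ge_atTop i, hg e i _ hm,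
      hg (a • e) i (a • m) (by rw [map_smul, map_smul, hm])] with j hj b c
    refine Subtype.ext ?_
    rw [Pi.smul_apply, Submodule.coe_smul, b (homOfLE hj), c (homOfLE hj), map_smul, map_smul,
      smul_sub]
  · obtain ⟨i⟩ := ‹Nonempty J›
    change Germ.ofFun (l := atTop) (g b) = _
    rw [Germ.coe_eq]
    filter_upwards [eventually_ge_atTop i,
      hg b i 0 (by rw [map_zero, LinearMap.mem_ker.1 b.2])] with j hj c
    refine Subtype.ext ?_
    rw [c (homOfLE hj), map_zero, map_zero, sub_zero]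

end Pool.Agent.P.MP_3d2265_gt.TC
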