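import Pool.Agent.P.MP_3d2265_gt.TC.Iface

/-! Step SHIFT. -/

set_option autoImplicit false

namespace Pool.Agent.P.MP_3d2265_gt.TC

open CategoryTheory Limits Function

theorem p_SHIFT : S_SHIFT := by
  intro A _ K c Y E Y' _ _ _ _ _ _ ι π inj ex sur ac
  have p0 : ∀ y, π (ι y) = 0 := ex.apply_apply_eq_zero
  have cy : ∀ (m : E) (y : Y), ι y = K.ε • m → K.ε • y = 0 := fun m y h =>
    inj (by rw [map_smul, h, K.ss, map_zero])
  constructor
  · intro h z u hz hu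
    obtain ⟨m, rfl⟩ := sur z
    obtain ⟨m', rfl⟩ := sur u
    obtain ⟨y, hy⟩ := (ex (K.ε • m)).1 (by rw [map_smul, hz])
    obtain ⟨t, ht⟩ := (ex (c.1 • m - K.ε • m')).1 (by rw [map_sub, map_smul, map_smul, hu, sub_self])
    obtain ⟨y₁, u₁, a, e⟩ := h y t (cy m y hy) (inj (by
      rw [map_smul, map_smul, hy, ht, smul_sub, K.ss, sub_zero, K.sc]))
    obtain ⟨m₁, h₁⟩ := ac (ι y₁) (by rw [← map_smul, a, map_zero])
    obtain ⟨m₂, h₂⟩ := ac (c.2.1 • m - c.2.2 • m₁ - ι u₁) (by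
      rw [smul_sub, smul_sub, K.sc, K.sc, ← hy, ← h₁, ← map_smul, ← map_smul, ← map_smul, e,
        map_add]; abel)
    refine ⟨π m₁, π m₂, by rw [← map_smul, ← h₁, p0], ?_⟩
    have := congrArg π h₂
    rw [map_sub, map_sub, p0, sub_zero, map_smul, map_smul, map_smul] at this
    rw [← this]; abel
  · intro h z u hz hu
    obtain ⟨m, hm⟩ := ac (ι z) (by rw [← map_smul, hz, map_zero])
    obtain ⟨m₁, h₁⟩ := ac (c.1 • m - ι u) (by
      rw [smul_sub, K.sc, ← hm, ← map_smul, ← map_smul, hu, sub_self])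
    obtain ⟨z₁, u₁, a, e⟩ := h (π m) (π m₁) (by rw [← map_smul, ← hm, p0]) (by
      rw [← map_smul, ← map_smul, ← h₁, map_sub, p0, sub_zero])
    obtain ⟨m₂, rfl⟩ := sur z₁
    obtain ⟨m₃, rfl⟩ := sur u₁
    obtain ⟨y, hy⟩ := (ex (K.ε • m₂)).1 (by rw [map_smul, a])
    obtain ⟨t, ht⟩ := (ex (c.2.1 • m - c.2.2 • m₂ - K.ε • m₃)).1 (by
      rw [map_sub, map_sub, map_smul, map_smul, map_smul, e]; abel)
    refine ⟨y, t, cy m₂ y hy, inj ?_⟩
    rw [map_add, map_smul, map_smul, map_smul, hm, hy, ht, smul_sub, smul_sub, K.ss, K.sc, K.sc]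
    abel

end Pool.Agent.P.MP_3d2265_gt.TC
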