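import Pool.Agent.P.MP_3d2265_gt.TC.Iface

/-! Step TE. -/

set_option autoImplicit false

namespace Pool.Agent.P.MP_3d2265_gt.TC

open CategoryTheory Limits Function

namespace TEx

/-- the trivial extension of an algebra by its dual -/
def Tr (k Λ : Type) [Field k] [Ring Λ] [Algebra k Λ] : Type := Λ × Module.Dual k Λ

variable {k Λ : Type} [Field k] [Ring Λ] [Algebra k Λ]

instance : AddCommGroup (Tr k Λ) := inferInstanceAs (AddCommGroup (Λ × Module.Dual k Λ))

instance : Module k (Tr k Λ) := inferInstanceAs (Module k (Λ × Module.Dual k Λ))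

instance : One (Tr k Λ) := ⟨((1 : Λ), (0 : Module.Dual k Λ))⟩

instance : Mul (Tr k Λ) :=
  ⟨fun a b => (a.1 * b.1, a.2 ∘ₗ LinearMap.mulLeft k b.1 + b.2 ∘ₗ LinearMap.mulRight k a.1)⟩

theorem ext {a b : Tr k Λ} (h1 : a.1 = b.1) (h2 : ∀ t, a.2 t = b.2 t) : a = b :=
  Prod.ext h1 (LinearMap.ext h2)

theorem mul1 (a b : Tr k Λ) : (a * b).1 = a.1 * b.1 := rfl
theorem mul2 (a b : Tr k Λ) (t : Λ) : (a * b).2 t = a.2 (b.1 * t) + b.2 (t * a.1) := rfl
theorem add1 (a b : Tr k Λ) : (a + b).1 = a.1 + b.1 := rfl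
theorem add2 (a b : Tr k Λ) (t : Λ) : (a + b).2 t = a.2 t + b.2 t := rfl
theorem one1 : (1 : Tr k Λ).1 = 1 := rfl
theorem one2 (t : Λ) : (1 : Tr k Λ).2 t = 0 := rfl
theorem zero1 : (0 : Tr k Λ).1 = 0 := rfl
theorem zero2 (t : Λ) : (0 : Tr k Λ).2 t = 0 := rfl
theorem smul1 (c : k) (a : Tr k Λ) : (c • a).1 = c • a.1 := rfl
theorem smul2 (c : k) (a : Tr k Λ) (t : Λ) : (c • a).2 t = c • a.2 t := rfl

instance : Ring (Tr k Λ) :=
  { (inferInstance : AddCommGroup (Tr k Λ)), (inferInstance : One (Tr k Λ)),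
    (inferInstance : Mul (Tr k Λ)) with
    mul_assoc := fun a b c => ext (mul_assoc _ _ _) fun t => by
      simp only [mul1, mul2, mul_assoc, add_assoc]
    one_mul := fun a => ext (one_mul _) fun t => by
      simp only [mul2, one1, one2, mul_one, zero_add]
    mul_one := fun a => ext (mul_one _) fun t => by
      simp only [mul2, one1, one2, one_mul, add_zero]
    zero_mul := fun a => ext (zero_mul _) fun t => by
      simp only [mul2, zero1, zero2, mul_zero, map_zero, zero_add]
    mul_zero := fun a => ext (mul_zero _) fun t => by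
      simp only [mul2, zero1, zero2, zero_mul, map_zero, zero_add]
    left_distrib := fun a b c => ext (mul_add _ _ _) fun t => by
      simp only [mul2, add1, add2, add_mul, map_add]
      abel
    right_distrib := fun a b c => ext (add_mul _ _ _) fun t => by
      simp only [mul2, add1, add2, mul_add, map_add]
      abel }

noncomputable instance : Algebra k (Tr k Λ) :=
  Algebra.ofModule
    (fun c a b => ext (smul_mul_assoc _ _ _) fun t => by
      simp only [mul2, smul1, smul2, mul_smul_comm, map_smul, smul_add])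
    (fun c a b => ext (mul_smul_comm _ _ _) fun t => by
      simp only [mul2, smul1, smul2, smul_mul_assoc, map_smul, smul_add])

/-- the inclusion -/
def inc : Λ →+* Tr k Λ where
  toFun l := (l, 0)
  map_one' := rfl
  map_mul' a b := ext rfl fun t => (add_zero (0 : k)).symm
  map_zero' := rfl
  map_add' a b := ext rfl fun t => (add_zero (0 : k)).symm

/-- the projection -/
def prj : Tr k Λ →+* Λ where
  toFun a := a.1
  map_one' := rfl
  map_mul' _ _ := rfl
  map_zero' := rfl
  map_add' _ _ := rfl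

/-- the form -/
def frm : Tr k Λ →ₗ[k] k where
  toFun a := a.2 1
  map_add' _ _ := rfl
  map_smul' _ _ := rfl

theorem frm_mul (a b : Tr k Λ) : frm (a * b) = a.2 b.1 + b.2 a.1 := by
  change (a * b).2 1 = _
  rw [mul2, mul_one, one_mul]

end TEx

theorem p_TE : S_TE := by
  intro k Λ _ _ _ hf
  refine ⟨TEx.Tr k Λ, inferInstance, inferInstance, TEx.inc, TEx.prj,
    inferInstanceAs (Module.Finite k (Λ × Module.Dual k Λ)), ⟨TEx.frm, fun a b => ?_, fun a h => ?_⟩,
    fun l => rfl⟩
  · rw [TEx.frm_mul, TEx.frm_mul, add_comm]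
  · refine TEx.ext ?_ fun t => ?_
    · refine (Module.forall_dual_apply_eq_zero_iff k a.1).1 fun f => ?_
      have : a.2 0 + f a.1 = 0 := (TEx.frm_mul a ((0 : Λ), f)).symm.trans (h _)
      rwa [map_zero, zero_add] at this
    · have : a.2 t + 0 = 0 := (TEx.frm_mul a (t, (0 : Module.Dual k Λ))).symm.trans (h _)
      rwa [add_zero] at this

end Pool.Agent.P.MP_3d2265_gt.TC
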