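import Pool.Agent.P.MP_3d2265_gt.TC.Iface

/-! Step TEL. -/

set_option autoImplicit false

namespace Pool.Agent.P.MP_3d2265_gt.TC

open CategoryTheory Limits Function

theorem p_TEL (hPUSH : S_PUSH) : S_TEL := by
  intro A _ K e e' a p ⟨r1, r2, r3, r4, r5, r6⟩ H M _ _
  let P := (ℕ →₀ A) × (ℕ →₀ A)
  let g₀ : ℕ → P := fun n => (Finsupp.single n 1, 0)
  let h₀ : ℕ → P := fun n => (0, Finsupp.single n 1)
  let R : Submodule A P := Submodule.span A {x | ∃ n, x = e • g₀ n - g₀ n ∨ x = e' • h₀ n - h₀ n ∨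
    x = K.ε • g₀ n ∨ x = K.ε • h₀ n + a • g₀ n - p • g₀ (n + 1)}
  have fr : ∀ (Y : Type) [AddCommGroup Y] [Module A Y] (g h : ℕ → Y),
      ∃ φ : P →ₗ[A] Y, ∀ n, φ (g₀ n) = g n ∧ φ (h₀ n) = h n := fun Y _ _ g h =>
    ⟨(Finsupp.linearCombination A g).coprod (Finsupp.linearCombination A h), fun n => by
      simp [g₀, h₀, P]⟩
  have ex : ∀ (Y : Type) [AddCommGroup Y] [Module A Y] (φ φ' : P →ₗ[A] Y),
      (∀ n, φ (g₀ n) = φ' (g₀ n) ∧ φ (h₀ n) = φ' (h₀ n)) → φ = φ' := fun Y _ _ φ φ' h =>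
    LinearMap.prod_ext (Finsupp.lhom_ext' fun n => LinearMap.ext_ring (h n).1)
      (Finsupp.lhom_ext' fun n => LinearMap.ext_ring (h n).2)
  have un : ∀ (Y : Type) [AddCommGroup Y] [Module A Y] (g h : ℕ → Y),
      (∀ n, e • g n = g n ∧ e' • h n = h n ∧ K.ε • g n = 0 ∧
        K.ε • h n + a • g n - p • g (n + 1) = 0) →
      ∃ φ : (P ⧸ R) →ₗ[A] Y, ∀ n, φ (R.mkQ (g₀ n)) = g n ∧ φ (R.mkQ (h₀ n)) = h n :=
    fun Y _ _ g h hr => by
      obtain ⟨φ, hφ⟩ := fr Y g h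
      refine ⟨R.liftQ φ (Submodule.span_le.2 ?_), hφ⟩
      rintro _ ⟨n, rfl | rfl | rfl | rfl⟩ <;>
        simp only [SetLike.mem_coe, LinearMap.mem_ker, map_sub, map_add, map_smul, hφ, hr n,
          sub_self]
  obtain ⟨θ, hθ⟩ := un P (fun n => (K.ε * e) • g₀ n)
    (fun n => (K.ε * e') • h₀ n - a • g₀ n + p • g₀ (n + 1)) fun n => by
      have c : ∀ r s : A, r * (K.ε * s) = K.ε * (r * s) := fun r s => by
        rw [← mul_assoc, ← K.cen, mul_assoc]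
      simp only [smul_add, smul_sub, smul_smul, c, r1, r2, r3, r4, r5, r6, ← mul_assoc K.ε, K.εε,
        zero_mul, zero_smul, true_and]
      abel
  obtain ⟨M', _, _, i, li, hi⟩ := hPUSH A K (P ⧸ R) P θ inferInstance (fun Y _ _ hY φ => by
    have z : ∀ x ∈ R, φ (R.mkQ x) = 0 := fun x hx => by
      rw [Submodule.mkQ_apply, (Submodule.Quotient.mk_eq_zero _).2 hx, map_zero]
    obtain ⟨u, v, huv⟩ := H Y hY (fun n => φ (R.mkQ (g₀ n))) (fun n => φ (R.mkQ (h₀ n))) fun n => by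
      have a1 := z _ (Submodule.subset_span ⟨n, .inl rfl⟩)
      have a2 := z _ (Submodule.subset_span ⟨n, .inr (.inl rfl)⟩)
      have a3 := z _ (Submodule.subset_span ⟨n, .inr (.inr (.inl rfl))⟩)
      have a4 := z _ (Submodule.subset_span ⟨n, .inr (.inr (.inr rfl))⟩)
      simp only [map_sub, map_smul, sub_eq_zero] at a1 a2 a3
      simp only [map_sub, map_add, map_smul] at a4
      exact ⟨a1, a2, a3, a4⟩
    obtain ⟨ψ, hψ⟩ := fr Y u v
    refine ⟨ψ, R.linearMap_qext (ex _ _ _ fun n => ?_)⟩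
    simp only [LinearMap.comp_apply, hθ, map_sub, map_add, map_smul, hψ]
    exact ⟨(huv n).1.symm, (huv n).2.symm⟩) M
  refine ⟨M', _, _, i, li, fun g h hr => ?_⟩
  obtain ⟨μ, hμ⟩ := un M g h hr
  obtain ⟨ν, hν⟩ := hi μ
  refine ⟨fun n => ν (g₀ n), fun n => ν (h₀ n), fun n => ?_⟩
  have a1 := LinearMap.congr_fun hν (R.mkQ (g₀ n))
  have a2 := LinearMap.congr_fun hν (R.mkQ (h₀ n))
  simp only [LinearMap.comp_apply, hθ, hμ, map_sub, map_add, map_smul] at a1 a2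
  exact ⟨a1.symm, a2.symm⟩

end Pool.Agent.P.MP_3d2265_gt.TC
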