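import Pool.Agent.P.MP_3d2265_gt.TC.Iface

/-! Step TEL0. -/

set_option autoImplicit false

namespace Pool.Agent.P.MP_3d2265_gt.TC

open CategoryTheory Limits Function

theorem p_TEL0 : S_TEL0 := by
  intro A _ K e e' a p Y _ _ ⟨r1, r2, r3, r4, r5, r6⟩ c1 c2 c3 g h H
  have h3 : ∀ z : Y, K.ε • z = 0 → ∃ u, p • z = K.ε • u := fun z hz => by
    obtain ⟨z', u, -, e⟩ := c3 z 0 hz (by simp)
    exact ⟨u, by simpa using e⟩
  have h1 : ∀ n, ∃ t, g n = K.ε • t ∧ e • t = t := fun n => by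
    obtain ⟨s, hs⟩ := h3 _ (H (n + 1)).2.2.1
    obtain ⟨z', t, -, e1⟩ := c2 (g n) (s - h n) (H n).2.2.1 (by
      have := (H n).2.2.2
      rw [smul_sub, ← hs]
      dsimp only
      rw [← sub_eq_zero, ← this]; abel)
    dsimp only at e1
    rw [zero_smul, zero_add, (H n).1] at e1
    exact ⟨e • t, by rw [K.sc, ← e1, (H n).1], by rw [smul_smul, r1]⟩
  choose t ht ht' using h1
  have h2 : ∀ n, ∃ z v, K.ε • z = 0 ∧
      h n + a • t n - p • t (n + 1) = a • z + K.ε • v := fun n => by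
    obtain ⟨z, v, a1, a2⟩ := c1 (h n + a • t n - p • t (n + 1)) 0 (by
      rw [smul_sub, smul_add, K.sc, K.sc, ← ht, ← ht]; exact (H n).2.2.2) (by simp)
    dsimp only at a2
    rw [smul_sub, smul_add, (H n).2.1, smul_smul, smul_smul, r3, r5] at a2
    exact ⟨z, v, a1, a2⟩
  choose z v hz hv using h2
  choose v' hv' using fun n => h3 _ (hz n)
  refine ⟨fun n => t n - z n, fun n => v n + v' (n + 1), fun n => ⟨?_, ?_⟩⟩
  · rw [LinearMap.id_apply, mul_smul, smul_sub, ht', smul_sub, K.sc, hz, smul_zero, sub_zero, ht]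
  · have e1 : h n = K.ε • (v n + v' (n + 1)) - a • (t n - z n) + p • (t (n + 1) - z (n + 1)) := by
      rw [smul_add, ← hv', smul_sub, smul_sub, ← sub_eq_zero, ← sub_eq_zero.2 (hv n)]; abel
    rw [LinearMap.id_apply, ← (H n).2.1, e1, smul_add e', smul_sub e', smul_smul e' a,
      smul_smul e' p, r3, r5, smul_smul, K.cen]

end Pool.Agent.P.MP_3d2265_gt.TC
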