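import Pool.Agent.P.MP_3d2265_gt.TC.Iface

/-! Step TEL1. -/

set_option autoImplicit false

namespace Pool.Agent.P.MP_3d2265_gt.TC

open CategoryTheory Limits Function

theorem p_TEL1 : S_TEL1 := by
  intro A _ K e e' a M M' _ _ _ _ i ⟨r1, r2, r3, r4, _, _⟩ H
  refine ⟨fun z _ hz _ => ?_, fun z u hz hu => ?_⟩
  · obtain ⟨u, v, h⟩ := H (fun _ => 0) (fun _ => e' • z) fun _ =>
      ⟨smul_zero _, by rw [smul_smul, r2], smul_zero _, by simp [K.sc, hz]⟩
    obtain ⟨h1, h2⟩ := h 0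
    refine ⟨-(e • u 0), e' • v 0, by rw [smul_neg, smul_smul, ← h1, map_zero, neg_zero], ?_⟩
    dsimp only
    rw [← map_smul, h2, smul_neg, smul_smul, r4, smul_smul, zero_smul]; abel
  · dsimp only at hu
    obtain ⟨u', v, h⟩ := H (fun _ => e • z) (fun _ => -(e' • u)) fun _ =>
      ⟨by rw [smul_smul, r1], by rw [smul_neg, smul_smul, r2], by rw [K.sc, hz, smul_zero], by
        rw [smul_neg, K.sc, ← hu, smul_smul, smul_smul, r3, r4, zero_smul]; abel⟩
    refine ⟨0, e • u' 0, smul_zero _, ?_⟩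
    dsimp only
    rw [← map_smul, (h 0).1, mul_smul, smul_zero, zero_add]

end Pool.Agent.P.MP_3d2265_gt.TC
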