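import Pool.Agent.P.MP_3d2265_gt.TC.Iface

/-! Step TT. -/

set_option autoImplicit false

namespace Pool.Agent.P.MP_3d2265_gt.TC

open CategoryTheory Limits Function

namespace TTx

theorem p3 (n : ℤ) : (0 : ℚ) < 3 ^ n := zpow_pos (by norm_num) n

/-- The positive cone. -/
def PP : Submonoid Gp where
  carrier := {g | 0 < g.b ∨ (g.b = 0 ∧ 0 ≤ g.n)}
  one_mem' := Or.inr ⟨rfl, le_rfl⟩
  mul_mem' {g h} hg hh := by
    have := p3 g.n
    simp only [Set.mem_ofPred_eq, Gp.mul_b, Gp.mul_n] at hg hh ⊢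
    rcases hg with a | ⟨a, a'⟩ <;> rcases hh with b | ⟨b, b'⟩
    · exact Or.inl (by positivity)
    · exact Or.inl (by rw [b, mul_zero, add_zero]; exact a)
    · exact Or.inl (by rw [a, zero_add]; positivity)
    · exact Or.inr ⟨by rw [a, b, mul_zero, add_zero], add_nonneg a' b'⟩

theorem mem_PP (g : Gp) : g ∈ PP ↔ 0 < g.b ∨ (g.b = 0 ∧ 0 ≤ g.n) := Iff.rfl

theorem cone : Cone PP := by
  refine ⟨fun g => ?_, fun g h h' => ?_⟩
  · have := p3 (-g.n)
    simp only [mem_PP, Gp.inv_b, Gp.inv_n]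
    rcases lt_trichotomy 0 g.b with a | a | a
    · exact Or.inl (Or.inl a)
    · rcases le_total 0 g.n with b | b
      · exact Or.inl (Or.inr ⟨a.symm, b⟩)
      · exact Or.inr (Or.inr ⟨by rw [← a, mul_zero, neg_zero], by omega⟩)
    · exact Or.inr (Or.inl (by nlinarith))
  · have := p3 (-g.n)
    simp only [mem_PP, Gp.inv_b, Gp.inv_n] at h h'
    rcases h with a | ⟨a, a'⟩ <;> rcases h' with b | ⟨b, b'⟩
    · nlinarith
    · nlinarith
    · rw [a] at b; simp at b
    · exact Gp.ext a (by rw [Gp.one_n]; omega)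

/-- A group element of the cone in the subalgebra. -/
noncomputable def el (k : Type) [Field k] (g : Gp) (hg : g ∈ PP) : Sup k PP :=
  ⟨MonoidAlgebra.single g 1, fun h hh => by
    rw [Finset.mem_singleton.1 (Finsupp.support_single_subset hh)]
    exact hg⟩

end TTx

open TTx in
theorem p_TT (hFOL : S_FOL) (hMIN : S_MIN) (hORE : S_ORE) (hLOCZ : S_LOCZ) : S_TT := by
  intro k _
  let χ : Sup k PP →ₐ[k] k :=
    { toFun := fun f => f.1.coeff 1
      map_one' := MonoidAlgebra.coeff_one_one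
      map_mul' := fun f g => (hMIN k Gp PP cone).2 f.1 g.1 1 g.2 fun h hh => by
        rw [inv_one, one_mul]; exact f.2 h hh
      map_zero' := rfl
      map_add' := fun f g => rfl
      commutes' := fun c => Finsupp.single_eq_same }
  obtain ⟨T, _, _, L, φ, h1, h2⟩ := hLOCZ k (Sup k PP) χ (hORE k Gp PP cone (hFOL k))
  have hq : (⟨1, 0⟩ : Gp) ∈ PP := Or.inl one_pos
  have hy : (⟨1 / 3, -1⟩ : Gp) ∈ PP := Or.inl (by norm_num)
  have hw : (⟨0, 1⟩ : Gp) ∈ PP := Or.inr ⟨rfl, zero_le_one⟩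
  refine ⟨T, _, _, L, φ (el k _ hq), φ (el k _ hy), φ (el k _ hw), fun e => ?_, ?_, ?_⟩
  · obtain ⟨s, hs, e⟩ := h2 _ e
    have e1 : s.1 * MonoidAlgebra.single (⟨1, 0⟩ : Gp) 1 = 0 := congrArg Subtype.val e
    have e2 := congrArg (· * MonoidAlgebra.single (⟨1, 0⟩ : Gp)⁻¹ (1 : k)) e1
    simp only [mul_assoc, MonoidAlgebra.single_mul_single, mul_inv_cancel, mul_one, zero_mul,
      ← MonoidAlgebra.one_def] at e2
    exact hs (by rw [show s = 0 from Subtype.ext e2, map_zero])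
  · rw [h1]
    exact Finsupp.single_eq_of_ne fun e => one_ne_zero (congrArg Gp.b e).symm
  · rw [← map_mul, ← map_mul, ← map_mul]
    congr 1
    refine Subtype.ext ?_
    change MonoidAlgebra.single _ _ * MonoidAlgebra.single _ _ * MonoidAlgebra.single _ _ *
      MonoidAlgebra.single _ _ = MonoidAlgebra.single _ _
    simp only [MonoidAlgebra.single_mul_single, mul_one]
    congr 1
    refine Gp.ext ?_ ?_
    · simp only [Gp.mul_b, Gp.mul_n]
      norm_num
    · simp only [Gp.mul_n]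
      norm_num

end Pool.Agent.P.MP_3d2265_gt.TC
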