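import Pool.Agent.P.MP_3d2265_gt.TC.TFOL
import Pool.Agent.P.MP_3d2265_gt.TC.TMIN
import Pool.Agent.P.MP_3d2265_gt.TC.TORE
import Pool.Agent.P.MP_3d2265_gt.TC.TLOCZ
import Pool.Agent.P.MP_3d2265_gt.TC.TTT
import Pool.Agent.P.MP_3d2265_gt.TC.TLAM
import Pool.Agent.P.MP_3d2265_gt.TC.TTE
import Pool.Agent.P.MP_3d2265_gt.TC.TDN
import Pool.Agent.P.MP_3d2265_gt.TC.TALG
import Pool.Agent.P.MP_3d2265_gt.TC.TBAER
import Pool.Agent.P.MP_3d2265_gt.TC.TFREE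
import Pool.Agent.P.MP_3d2265_gt.TC.TSHIFT
import Pool.Agent.P.MP_3d2265_gt.TC.TGERM
import Pool.Agent.P.MP_3d2265_gt.TC.TCOLIM
import Pool.Agent.P.MP_3d2265_gt.TC.TLLSEQ
import Pool.Agent.P.MP_3d2265_gt.TC.TOMEGA
import Pool.Agent.P.MP_3d2265_gt.TC.TPUSH
import Pool.Agent.P.MP_3d2265_gt.TC.TTEL
import Pool.Agent.P.MP_3d2265_gt.TC.TTEL0
import Pool.Agent.P.MP_3d2265_gt.TC.TTEL1
import Pool.Agent.P.MP_3d2265_gt.TC.TTEL2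
import Pool.Agent.P.MP_3d2265_gt.TC.TENV
import Pool.Agent.P.MP_3d2265_gt.TC.TLLAA
import Pool.Agent.P.MP_3d2265_gt.TC.TCOV
import Pool.Agent.P.MP_3d2265_gt.TC.TRET
import Pool.Agent.P.MP_3d2265_gt.TC.TGBAER
import Pool.Agent.P.MP_3d2265_gt.TC.TAALIM
import Pool.Agent.P.MP_3d2265_gt.TC.TEXT1
import Pool.Agent.P.MP_3d2265_gt.TC.TEXT2
import Pool.Agent.P.MP_3d2265_gt.TC.TCHCP
import Pool.Agent.P.MP_3d2265_gt.TC.TEXTEND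
import Pool.Agent.P.MP_3d2265_gt.TC.TINV
import Pool.Agent.P.MP_3d2265_gt.TC.TNAK
import Pool.Agent.P.MP_3d2265_gt.TC.TORTH0
import Pool.Agent.P.MP_3d2265_gt.TC.TORTH
import Pool.Agent.P.MP_3d2265_gt.TC.TREP
import Pool.Agent.P.MP_3d2265_gt.TC.TPURE
import Pool.Agent.P.MP_3d2265_gt.TC.TMAIN

/-! Assembly. -/

set_option autoImplicit false

namespace Pool.Agent.P.MP_3d2265_gt.TC

theorem t_FOL : S_FOL := p_FOL
theorem t_MIN : S_MIN := p_MIN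
theorem t_ORE : S_ORE := p_ORE t_MIN
theorem t_LOCZ : S_LOCZ := p_LOCZ
theorem t_TT : S_TT := p_TT t_FOL t_MIN t_ORE t_LOCZ
theorem t_LAM : S_LAM := p_LAM
theorem t_TE : S_TE := p_TE
theorem t_DN : S_DN := p_DN
theorem t_ALG : S_ALG := p_ALG t_TT t_LAM t_TE t_DN
theorem t_BAER : S_BAER := p_BAER
theorem t_FREE : S_FREE := p_FREE
theorem t_SHIFT : S_SHIFT := p_SHIFT
theorem t_GERM : S_GERM := p_GERM
theorem t_COLIM : S_COLIM := p_COLIM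
theorem t_LLSEQ : S_LLSEQ := p_LLSEQ
theorem t_OMEGA : S_OMEGA := p_OMEGA t_COLIM t_LLSEQ
theorem t_PUSH : S_PUSH := p_PUSH
theorem t_TEL : S_TEL := p_TEL t_PUSH
theorem t_TEL0 : S_TEL0 := p_TEL0
theorem t_TEL1 : S_TEL1 := p_TEL1
theorem t_TEL2 : S_TEL2 := p_TEL2
theorem t_ENV : S_ENV := p_ENV t_OMEGA t_TEL t_TEL0 t_TEL1 t_TEL2
theorem t_LLAA : S_LLAA := p_LLAA
theorem t_COV : S_COV := p_COV t_LLAA
theorem t_RET : S_RET := p_RET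
theorem t_GBAER : S_GBAER := p_GBAER t_GERM t_SHIFT t_FREE
theorem t_AALIM : S_AALIM := p_AALIM t_COV t_RET t_GBAER
theorem t_EXT1 : S_EXT1 := p_EXT1
theorem t_EXT2 : S_EXT2 := p_EXT2
theorem t_CHCP : S_CHCP := p_CHCP t_EXT1 t_EXT2 t_SHIFT t_LLAA t_COV
theorem t_EXTEND : S_EXTEND := p_EXTEND
theorem t_INV : S_INV := p_INV
theorem t_NAK : S_NAK := p_NAK t_INV
theorem t_ORTH0 : S_ORTH0 := p_ORTH0 t_NAK
theorem t_ORTH : S_ORTH := p_ORTH t_ORTH0 t_EXTEND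
theorem t_REP : S_REP := p_REP
theorem t_PURE : S_PURE := p_PURE t_LLAA
theorem t_MAIN : S_MAIN := p_MAIN t_ALG t_BAER t_ENV t_CHCP t_AALIM t_COLIM t_ORTH t_REP t_PURE

theorem main : S_MAIN := t_MAIN

end Pool.Agent.P.MP_3d2265_gt.TC
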