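import Pool.Agent.P.MP_3d2265_gt.TC.Iface

/-! Step EXTEND. -/

set_option autoImplicit false

namespace Pool.Agent.P.MP_3d2265_gt.TC

open CategoryTheory Limits Function

theorem p_EXTEND : S_EXTEND := by
  intro A _ K F Y _ _ _ _ N μ hA hY
  obtain ⟨I, _, _, ι, inj, hI⟩ := exists_inj A Y
  obtain ⟨φ, hφ⟩ := Module.Injective.extension_property A I _ _ N.subtype Subtype.val_injective
    (ι ∘ₗ μ)
  have e0 : ∀ n : N, φ n = ι (μ n) := LinearMap.congr_fun hφ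
  obtain ⟨h, hh⟩ := hA I _ (LinearMap.range ι).mkQ (SB.of_exact hY inj
    (LinearMap.exact_map_mkQ_range ι) (Submodule.mkQ_surjective _))
    (N.liftQ ((LinearMap.range ι).mkQ ∘ₗ φ) fun n hn =>
      (Submodule.Quotient.mk_eq_zero _).2 ⟨_, (e0 ⟨n, hn⟩).symm⟩)
  have mem : ∀ x, (φ - h ∘ₗ N.mkQ) x ∈ LinearMap.range ι := fun x =>
    (Submodule.Quotient.eq _).1 (LinearMap.congr_fun hh (N.mkQ x)).symm
  refine ⟨(LinearEquiv.ofInjective ι inj).symm.toLinearMap ∘ₗ LinearMap.codRestrict _ _ mem,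
    LinearMap.ext fun n => ?_⟩
  refine (LinearEquiv.symm_apply_eq (LinearEquiv.ofInjective ι inj)).2 (Subtype.ext ?_)
  simp [e0, (Submodule.Quotient.mk_eq_zero N).2 n.2]

end Pool.Agent.P.MP_3d2265_gt.TC
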