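import Pool.Agent.P.MP_3d2265_gt.TC.Iface

/-! Step FOL. -/

set_option autoImplicit false

namespace Pool.Agent.P.MP_3d2265_gt.TC

open CategoryTheory Limits Function

namespace FOLx

/-- A finite set that grows by less than a factor two gives common left multiples. -/
theorem ore {k G : Type} [Field k] [Group G] (r s : MonoidAlgebra k G) (F S : Finset G)
    (hr : ∀ f ∈ F, ∀ g ∈ r.coeff.support, f * g ∈ S)
    (hs : ∀ f ∈ F, ∀ g ∈ s.coeff.support, f * g ∈ S) (hc : S.card < 2 * F.card) :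
    ∃ u v : MonoidAlgebra k G, (u ≠ 0 ∨ v ≠ 0) ∧ u * r = v * s := by
  classical
  have fin : ∀ X : Finset G, FiniteDimensional k (MonoidAlgebra.supported k k (X : Set G)) ∧
      Module.finrank k (MonoidAlgebra.supported k k (X : Set G)) = X.card := fun X => by
    have e := MonoidAlgebra.supportedEquivFinsupp (R := k) (S := k) (X : Set G)
    refine ⟨e.symm.finiteDimensional, ?_⟩
    rw [e.finrank_eq, Module.finrank_finsupp_self]
    simp
  have mem : ∀ (t : MonoidAlgebra k G), (∀ f ∈ F, ∀ g ∈ t.coeff.support, f * g ∈ S) →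
      ∀ u : MonoidAlgebra.supported k k (F : Set G),
        u.1 * t ∈ MonoidAlgebra.supported k k (S : Set G) := fun t ht u g hg => by
    obtain ⟨a, ha, b, hb, rfl⟩ :=
      Finset.mem_mul.1 (MonoidAlgebra.support_coeff_mul_subset u.1 t hg)
    exact ht a (u.2 ha) b hb
  let m : ∀ (t : MonoidAlgebra k G), (∀ f ∈ F, ∀ g ∈ t.coeff.support, f * g ∈ S) →
      (MonoidAlgebra.supported k k (F : Set G) →ₗ[k] MonoidAlgebra.supported k k (S : Set G)) :=
    fun t ht => ((LinearMap.mulRight k t).domRestrict _).codRestrict _ (mem t ht)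
  have i1 := (fin F).1
  have i2 := (fin S).1
  have hk := LinearMap.ker_ne_bot_of_finrank_lt (f := (m r hr).coprod (-(m s hs))) (by
    rw [Module.finrank_prod, (fin F).2, (fin S).2]; omega)
  obtain ⟨x, hx, hx0⟩ := (Submodule.ne_bot_iff _).1 hk
  refine ⟨x.1.1, x.2.1, ?_, ?_⟩
  · by_contra h
    rw [not_or, not_not, not_not] at h
    exact hx0 (Prod.ext (Subtype.ext h.1) (Subtype.ext h.2))
  · have h : x.1.1 * r + -(x.2.1 * s) = 0 := congrArg Subtype.val (LinearMap.mem_ker.1 hx)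
    exact add_neg_eq_zero.1 h

/-- Finite subsets of the group have sets of small growth. -/
theorem fol (K : Finset Gp) :
    ∃ F S : Finset Gp, (∀ f ∈ F, ∀ g ∈ K, f * g ∈ S) ∧ S.card < 2 * F.card := by
  classical
  obtain ⟨D, hD, hDK⟩ : ∃ D : ℕ, 0 < D ∧ ∀ g ∈ K, ∃ a : ℤ, (a : ℚ) = g.b * D := by
    refine ⟨∏ g ∈ K, g.b.den, Finset.prod_pos fun g _ => g.b.den_pos, fun g hg => ?_⟩
    obtain ⟨t, ht⟩ := Finset.dvd_prod_of_mem (fun g : Gp => g.b.den) hg
    refine ⟨g.b.num * t, ?_⟩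
    rw [ht]
    push_cast
    rw [← mul_assoc, Rat.mul_den_eq_num]
  choose! a ha using hDK
  have hD' : (D : ℚ) ≠ 0 := by positivity
  obtain ⟨c, hc⟩ : ∃ c : ℕ, ∀ g ∈ K, (a g).natAbs ≤ c :=
    ⟨K.sup fun g => (a g).natAbs, fun g hg => Finset.le_sup (f := fun g => (a g).natAbs) hg⟩
  obtain ⟨m, hm⟩ : ∃ m : ℕ, ∀ g ∈ K, g.n.natAbs ≤ m :=
    ⟨K.sup fun g => g.n.natAbs, fun g hg => Finset.le_sup (f := fun g : Gp => g.n.natAbs) hg⟩
  obtain ⟨C, hC⟩ : ∃ C : ℕ, C = 3 ^ (2 * m + 1) * c := ⟨_, rfl⟩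
  obtain ⟨L, hL⟩ : ∃ L : ℕ, L = 2 * C * (4 * m + 1) + 1 := ⟨_, rfl⟩
  let ι : ℤ × ℤ → Gp := fun p => ⟨p.1 / D, p.2⟩
  have hι : Injective ι := fun p q h => by
    have h1 : (p.1 : ℚ) / D = q.1 / D := congrArg Gp.b h
    have h2 : p.2 = q.2 := congrArg Gp.n h
    rw [div_left_inj' hD'] at h1
    exact Prod.ext (by exact_mod_cast h1) h2
  refine ⟨(Finset.Ico (0 : ℤ) L ×ˢ Finset.Ico (0 : ℤ) (2 * m + 1 : ℕ)).image ι,
    (Finset.Ico (-(C : ℤ)) (L + C) ×ˢ Finset.Ico (-(m : ℤ)) (3 * m + 1 : ℕ)).image ι, ?_, ?_⟩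
  · intro f hf g hg
    obtain ⟨⟨j, n⟩, hp, rfl⟩ := Finset.mem_image.1 hf
    simp only [Finset.mem_product, Finset.mem_Ico] at hp
    obtain ⟨⟨h1, h2⟩, h3, h4⟩ := hp
    obtain ⟨n, rfl⟩ := Int.eq_ofNat_of_zero_le h3
    have h5 : n < 2 * m + 1 := by exact_mod_cast h4
    have h6 : (3 ^ n * a g).natAbs ≤ C := by
      rw [Int.natAbs_mul, Int.natAbs_pow, hC]
      exact Nat.mul_le_mul (Nat.pow_le_pow_right (by norm_num) h5.le) (hc g hg)
    have h7 := hm g hg
    refine Finset.mem_image.2 ⟨(j + 3 ^ n * a g, n + g.n), ?_, Gp.ext ?_ rfl⟩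
    · simp only [Finset.mem_product, Finset.mem_Ico]
      omega
    · change ((j + 3 ^ n * a g : ℤ) : ℚ) / D = j / D + 3 ^ (n : ℤ) * g.b
      push_cast
      rw [ha g hg, zpow_natCast]
      field_simp
  · rw [Finset.card_image_of_injective _ hι, Finset.card_image_of_injective _ hι,
      Finset.card_product, Finset.card_product, Int.card_Ico, Int.card_Ico, Int.card_Ico,
      Int.card_Ico]
    have e1 : ((L : ℤ) + C - -(C : ℤ)).toNat = L + 2 * C := by omega
    have e2 : (((3 * m + 1 : ℕ) : ℤ) - -(m : ℤ)).toNat = 4 * m + 1 := by omega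
    have e3 : ((L : ℤ) - 0).toNat = L := by omega
    have e4 : (((2 * m + 1 : ℕ) : ℤ) - 0).toNat = 2 * m + 1 := by omega
    rw [e1, e2, e3, e4]
    have : (L + 2 * C) * (4 * m + 1) + 1 = 2 * (L * (2 * m + 1)) := by
      have : 2 * (L * (2 * m + 1)) = L * (4 * m + 1) + L := by ring
      rw [this]
      nth_rewrite 3 [hL]
      ring
    omega

end FOLx

theorem p_FOL : S_FOL := by
  intro k _ r s
  classical
  obtain ⟨F, S, h, hc⟩ := FOLx.fol (r.coeff.support ∪ s.coeff.support)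
  exact FOLx.ore r s F S (fun f hf g hg => h f hf g (Finset.mem_union_left _ hg))
    (fun f hf g hg => h f hf g (Finset.mem_union_right _ hg)) hc

end Pool.Agent.P.MP_3d2265_gt.TC
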