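import Pool.Agent.P.MP_3d2265_gt.TC.Iface

/-! Step FREE. -/

set_option autoImplicit false

namespace Pool.Agent.P.MP_3d2265_gt.TC

open CategoryTheory Limits Function

theorem p_FREE : S_FREE := by
  classical
  intro A _ hN hB J I g
  choose c hc using fun j : J => hB I (Finsupp.lapply j ∘ₗ g)
  obtain ⟨S, hS⟩ : (⊤ : Submodule A I).FG := Module.Finite.fg_top
  refine ⟨∑ j ∈ S.biUnion (fun x => (g x).support), Finsupp.lsingle j ∘ₗ c j, fun x hx => ?_⟩
  ext j
  rw [LinearMap.sum_apply, Finsupp.finsetSum_apply]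
  simp only [LinearMap.comp_apply, Finsupp.lsingle_apply, Finsupp.single_apply, hc _ x hx,
    Finsupp.lapply_apply, Finset.sum_ite_eq']
  split_ifs with h
  · rfl
  · have : Finsupp.lapply j ∘ₗ g = 0 := LinearMap.ext_on hS fun y hy => by
      by_contra e
      exact h (Finset.mem_biUnion.2 ⟨y, hy, Finsupp.mem_support_iff.2 e⟩)
    exact (LinearMap.congr_fun this ⟨x, hx⟩).symm

end Pool.Agent.P.MP_3d2265_gt.TC
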