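import Pool.Agent.P.MP_3d2265_gt.TC.Iface

/-! Step TEL2. -/

set_option autoImplicit false

namespace Pool.Agent.P.MP_3d2265_gt.TC

open CategoryTheory Limits Function

theorem p_TEL2 : S_TEL2 := by
  intro A _ D M M' _ _ _ _ i c H z₀ _ hz _
  have st : ∀ z : {z : M // D.ε • z = 0}, ∃ (z' : {z : M // D.ε • z = 0}) (t : M),
      D.w • z.1 = D.b • z'.1 + D.ε • t := fun z => by
    obtain ⟨z', t, a, e⟩ := c (D.w • z.1) 0 ((D.ctx.sc _ _).trans (by
      rw [show D.ctx.ε • z.1 = 0 from z.2, smul_zero])) (by simp)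
    dsimp only at e
    rw [smul_smul, D.e₂w] at e
    exact ⟨⟨z', a⟩, t, e⟩
  choose f t hf using st
  have sc : ∀ (r : A) (m : M), D.ε • r • m = r • D.ε • m := D.ctx.sc
  obtain ⟨u, v, h⟩ := H (fun n => D.q • (f^[n] ⟨z₀, hz⟩).1)
    (fun n => -(D.x • t (f^[n] ⟨z₀, hz⟩))) fun n =>
    ⟨by rw [smul_smul, D.e₂q], by rw [smul_neg, smul_smul, D.e₁x],
      by rw [sc, (f^[n] ⟨z₀, hz⟩).2, smul_zero], by
      rw [iterate_succ_apply', smul_smul D.a, smul_smul D.p, D.r₂, ← D.r₁, mul_smul, mul_smul, hf,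
        smul_neg, sc, smul_add]; abel⟩
  refine ⟨0, D.e₂ • u 0, smul_zero _, ?_⟩
  dsimp only
  rw [← map_smul, smul_zero, zero_add, smul_smul]
  exact (h 0).1

end Pool.Agent.P.MP_3d2265_gt.TC
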